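import Pool.Agent.DPS.Tensor

namespace Pool.Agent.DPS

open Finset

theorem exists_perm_map {β : Type*} [Fintype β] [DecidableEq β] (S T : Finset β)
    (h : S.card = T.card) : ∃ τ : Equiv.Perm β, S.map τ.toEmbedding = T := by
  classical
  let e : {x // x ∈ S} ≃ {x // x ∈ T} := Finset.equivOfCardEq h
  refine ⟨e.extendSubtype, ?_⟩
  apply Finset.eq_of_subset_of_card_le
  · intro y hy
    rw [Finset.mem_map] at hy
    obtain ⟨x, hx, rfl⟩ := hy
    exact Equiv.extendSubtype_mem e x hx
  · rw [Finset.card_map, h]

/-- Averaging over permutations. -/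
theorem avg_perm {β : Type*} [Fintype β] [DecidableEq β] (φ : Finset β → ℕ) (S : Finset β) :
    (Fintype.card β).choose S.card * ∑ σ : Equiv.Perm β, φ (S.map σ.toEmbedding) =
      Fintype.card (Equiv.Perm β) * ∑ T ∈ powersetCard S.card univ, φ T := by
  classical
  have h1 : ∑ T ∈ powersetCard S.card (univ : Finset β), ∑ σ : Equiv.Perm β,
      φ (T.map σ.toEmbedding) =
      (Fintype.card β).choose S.card * ∑ σ : Equiv.Perm β, φ (S.map σ.toEmbedding) := by
    rw [Finset.sum_congr rfl (g := fun _ => ∑ σ : Equiv.Perm β, φ (S.map σ.toEmbedding))]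
    · rw [Finset.sum_const, Finset.card_powersetCard, Finset.card_univ, smul_eq_mul]
    · intro T hT
      rw [Finset.mem_powersetCard] at hT
      obtain ⟨τ, rfl⟩ := exists_perm_map S T hT.2.symm
      rw [← Equiv.sum_comp (Equiv.mulRight τ) (fun σ : Equiv.Perm β => φ (S.map σ.toEmbedding))]
      apply Finset.sum_congr rfl
      intro σ _
      rw [Finset.map_map]
      rfl
  have h2 : ∑ σ : Equiv.Perm β, ∑ T ∈ powersetCard S.card (univ : Finset β),
      φ (T.map σ.toEmbedding) =
      Fintype.card (Equiv.Perm β) * ∑ T ∈ powersetCard S.card univ, φ T := by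
    rw [Finset.sum_congr rfl (g := fun _ => ∑ T ∈ powersetCard S.card univ, φ T)]
    · rw [Finset.sum_const, Finset.card_univ, smul_eq_mul]
    · intro σ _
      refine Finset.sum_nbij' (fun T => T.map σ.toEmbedding) (fun T => T.map σ.symm.toEmbedding)
        ?_ ?_ ?_ ?_ ?_
      · intro T hT
        rw [Finset.mem_powersetCard] at hT ⊢
        exact ⟨Finset.subset_univ _, by rw [Finset.card_map]; exact hT.2⟩
      · intro T hT
        rw [Finset.mem_powersetCard] at hT ⊢
        exact ⟨Finset.subset_univ _, by rw [Finset.card_map]; exact hT.2⟩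
      · intro T _
        ext x
        simp
      · intro T _
        ext x
        simp
      · intro T _
        rfl
  rw [← h1, ← h2, Finset.sum_comm]

theorem class_le {β : Type*} [Fintype β] [DecidableEq β] (u : ℕ) (hu : 3*u ≤ Fintype.card β)
    (v : Finset β → ℕ)
    (hv : ∀ (P : Finset β) (x b c : β), P.card + 1 = u → x ∉ P → b ∉ P → c ∉ P →
      x ≠ b → x ≠ c → b ≠ c → v (insert x P) ≤ v (insert b P) + v (insert c P))
    (P Q : Finset β → Prop) [DecidablePred P] [DecidablePred Q]
    (hPQ : ∀ f g, f.card = u → g.card = u → P f → Disjoint f g → Q g) :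
    (∑ f ∈ powersetCard u (univ : Finset β), if P f then v f else 0) ≤
      ∑ g ∈ powersetCard u (univ : Finset β), if Q g then v g else 0 := by
  classical
  have hne : Nonempty (Fin u × Fin 3 ↪ β) := by
    apply Function.Embedding.nonempty_of_card_le
    simp only [Fintype.card_prod, Fintype.card_fin]
    omega
  obtain ⟨e⟩ := hne
  -- transversals
  let S : (Fin u × Fin 3 ↪ β) → (Fin u → Fin 3) → Finset β := fun e c =>
    univ.image (fun t => e (t, c t))
  have hinj : ∀ (e : Fin u × Fin 3 ↪ β) (c : Fin u → Fin 3),
      Function.Injective (fun t => e (t, c t)) := by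
    intro e c t t' h
    have := e.injective h
    simp only [Prod.mk.injEq] at this
    exact this.1
  have hcard : ∀ e c, (S e c).card = u := by
    intro e c
    simp only [S]
    rw [Finset.card_image_of_injective _ (hinj e c), Finset.card_univ, Fintype.card_fin]
  have hmap : ∀ (σ : Equiv.Perm β) c, (S e c).map σ.toEmbedding = S (e.trans σ.toEmbedding) c := by
    intro σ c
    ext x
    simp [S, Equiv.eq_symm_apply]
  have hupd : ∀ (e : Fin u × Fin 3 ↪ β) c t b, S e (Function.update c t b) =
      insert (e (t, b)) ((univ.erase t).image (fun t => e (t, c t))) := by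
    intro e c t b
    ext x
    simp only [S, Finset.mem_image, Finset.mem_univ, true_and, Finset.mem_insert,
      Finset.mem_erase, and_true]
    constructor
    · rintro ⟨s, rfl⟩
      by_cases hs : s = t
      · subst hs; left; simp
      · right; exact ⟨s, hs, by simp [Function.update_of_ne hs]⟩
    · rintro (rfl | ⟨s, hs, rfl⟩)
      · exact ⟨t, by simp⟩
      · exact ⟨s, by simp [Function.update_of_ne hs]⟩
  have hself : ∀ (e : Fin u × Fin 3 ↪ β) c t, S e c =
      insert (e (t, c t)) ((univ.erase t).image (fun t => e (t, c t))) := by
    intro e c t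
    have := hupd e c t (c t)
    rwa [Function.update_eq_self] at this
  have hnot : ∀ (e : Fin u × Fin 3 ↪ β) (c : Fin u → Fin 3) t b,
      e (t, b) ∉ (univ.erase t).image (fun t => e (t, c t)) := by
    intro e c t b h
    simp only [Finset.mem_image, Finset.mem_univ, Finset.mem_erase, and_true] at h
    obtain ⟨s, hs, h⟩ := h
    have := e.injective h
    simp only [Prod.mk.injEq] at this
    exact hs this.1
  -- the inequality for each embedding
  have hone : ∀ e : Fin u × Fin 3 ↪ β,
      (∑ c : Fin u → Fin 3, if P (S e c) then v (S e c) else 0) ≤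
      ∑ c : Fin u → Fin 3, if Q (S e c) then v (S e c) else 0 := by
    intro e
    apply tensor u (fun c => v (S e c)) _ (fun c => P (S e c)) (fun c => Q (S e c))
    · intro c c' hc h
      apply hPQ (S e c) (S e c') (hcard e c) (hcard e c') hc
      rw [Finset.disjoint_left]
      intro x hx hx'
      simp only [S, Finset.mem_image, Finset.mem_univ, true_and] at hx hx'
      obtain ⟨t, rfl⟩ := hx
      obtain ⟨t', ht'⟩ := hx'
      have := e.injective ht'
      simp only [Prod.mk.injEq] at this
      obtain ⟨rfl, h2⟩ := this
      exact h _ h2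
    · intro c t b b' hbb hb hb'
      rw [hupd e c t b, hupd e c t b']
      nth_rewrite 1 [hself e c t]
      apply hv
      · rw [Finset.card_image_of_injective _ (hinj e c), Finset.card_erase_of_mem (mem_univ _),
          Finset.card_univ, Fintype.card_fin]
        have : 0 < u := t.pos
        omega
      · exact hnot e c t _
      · exact hnot e c t _
      · exact hnot e c t _
      · intro h
        have := e.injective h
        simp only [Prod.mk.injEq, true_and] at this
        exact hb this.symm
      · intro h
        have := e.injective h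
        simp only [Prod.mk.injEq, true_and] at this
        exact hb' this.symm
      · intro h
        have := e.injective h
        simp only [Prod.mk.injEq, true_and] at this
        exact hbb this
  -- sum over permutations
  have htot : ∀ (R : Finset β → Prop) [DecidablePred R],
      (Fintype.card β).choose u * ∑ σ : Equiv.Perm β, (∑ c : Fin u → Fin 3,
        if R (S (e.trans σ.toEmbedding) c) then v (S (e.trans σ.toEmbedding) c) else 0) =
      (Fintype.card (Fin u → Fin 3) * Fintype.card (Equiv.Perm β)) *
        ∑ T ∈ powersetCard u (univ : Finset β), if R T then v T else 0 := by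
    intro R _
    rw [Finset.sum_comm, Finset.mul_sum]
    rw [Finset.sum_congr rfl (g := fun _ => Fintype.card (Equiv.Perm β) *
      ∑ T ∈ powersetCard u (univ : Finset β), if R T then v T else 0)]
    · rw [Finset.sum_const, Finset.card_univ, smul_eq_mul, mul_assoc]
    · intro c _
      have := avg_perm (fun T => if R T then v T else 0) (S e c)
      rw [hcard e c] at this
      rw [← this]
      congr 1
      apply Finset.sum_congr rfl
      intro σ _
      simp only [hmap σ c]
  have hle : (Fintype.card (Fin u → Fin 3) * Fintype.card (Equiv.Perm β)) *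
        (∑ T ∈ powersetCard u (univ : Finset β), if P T then v T else 0) ≤
      (Fintype.card (Fin u → Fin 3) * Fintype.card (Equiv.Perm β)) *
        ∑ T ∈ powersetCard u (univ : Finset β), if Q T then v T else 0 := by
    rw [← htot P, ← htot Q]
    apply Nat.mul_le_mul_left
    apply Finset.sum_le_sum
    intro σ _
    exact hone _
  refine Nat.le_of_mul_le_mul_left hle ?_
  apply Nat.mul_pos
  · exact Fintype.card_pos
  · exact Fintype.card_pos

end Pool.Agent.DPS
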