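import Mathlib

namespace Pool.Agent.DPS

open Finset

variable {n : ℕ}

/-- A function on sets which does not decrease under the elementary shifts. -/
def ShMono (g : Finset (Fin n) → ℕ) : Prop :=
  ∀ (A : Finset (Fin n)) (i j : Fin n), i < j → j ∈ A → i ∉ A → g A ≤ g (insert i (A.erase j))

/-- A shifted family. -/
def Shifted (F : Finset (Finset (Fin n))) : Prop :=
  ∀ A ∈ F, ∀ i j : Fin n, i < j → j ∈ A → i ∉ A → insert i (A.erase j) ∈ F

theorem shift_move (g : Finset (Fin n) → ℕ) (hg : ShMono g) (D f : Finset (Fin n))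
    (ρ : Fin n → Fin n) (hinj : Set.InjOn ρ D) (hlt : ∀ x ∈ D, ρ x < x)
    (hD : ∀ x ∈ D, ρ x ∉ D) (hf : ∀ x ∈ D, ρ x ∉ f) (hDf : Disjoint D f) :
    g (D ∪ f) ≤ g (D.image ρ ∪ f) := by
  classical
  have key : ∀ S : Finset (Fin n), S ⊆ D → g (D ∪ f) ≤ g ((D \ S) ∪ S.image ρ ∪ f) := by
    intro S
    induction S using Finset.induction_on with
    | empty =>
      intro _
      simp
    | insert x S hx ih =>
      intro hS
      have hxD : x ∈ D := hS (Finset.mem_insert_self _ _)
      have hSD : S ⊆ D := (Finset.subset_insert _ _).trans hS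
      refine (ih hSD).trans ?_
      have h1 : x ∈ (D \ S) ∪ S.image ρ ∪ f := by
        simp [hxD, hx]
      have h2 : ρ x ∉ (D \ S) ∪ S.image ρ ∪ f := by
        simp only [Finset.mem_union, Finset.mem_sdiff, Finset.mem_image, not_or, not_and,
          not_exists]
        refine ⟨⟨fun h => absurd h (hD x hxD), ?_⟩, hf x hxD⟩
        intro y hy hyx
        have := hinj (hSD hy) hxD hyx
        subst this
        exact hx hy
      have h3 : insert (ρ x) (((D \ S) ∪ S.image ρ ∪ f).erase x) =
          (D \ insert x S) ∪ (insert x S).image ρ ∪ f := by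
        ext y
        simp only [Finset.mem_insert, Finset.mem_erase, Finset.mem_union, Finset.mem_sdiff,
          Finset.mem_image, ne_eq]
        constructor
        · rintro (rfl | ⟨hyx, (⟨h, h'⟩ | ⟨s, hs, rfl⟩) | h⟩)
          · left; right; exact ⟨x, Or.inl rfl, rfl⟩
          · left; left; exact ⟨h, fun hh => hh.elim hyx h'⟩
          · left; right; exact ⟨s, Or.inr hs, rfl⟩
          · right; exact h
        · rintro ((⟨h, h'⟩ | ⟨s, hs, rfl⟩) | h)
          · right
            exact ⟨fun e => h' (Or.inl e), Or.inl (Or.inl ⟨h, fun e => h' (Or.inr e)⟩)⟩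
          · rcases hs with rfl | hs
            · left; rfl
            · right
              refine ⟨?_, Or.inl (Or.inr ⟨s, hs, rfl⟩)⟩
              intro e
              exact hD s (hSD hs) (e ▸ hxD)
          · right
            refine ⟨?_, Or.inr h⟩
            rintro rfl
            exact (Finset.disjoint_left.mp hDf hxD h)
      rw [← h3]
      exact hg _ _ _ (hlt x hxD) h1 h2
  have := key D (Finset.Subset.refl _)
  simpa using this

theorem rho_exists (D : Finset (Fin n))
    (h : ∀ x ∈ D, 2 * (D.filter (· < x)).card + 1 ≤ x.val) :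
    ∃ ρ : Fin n → Fin n, Set.InjOn ρ D ∧ (∀ x ∈ D, ρ x < x) ∧ ∀ x ∈ D, ρ x ∉ D := by
  classical
  have hall : ∃ f : {x // x ∈ D} → Fin n, Function.Injective f ∧
      ∀ x, f x ∈ (univ.filter (fun y : Fin n => y < x.1 ∧ y ∉ D)) := by
    rw [← Finset.all_card_le_biUnion_card_iff_exists_injective]
    intro s
    rcases s.eq_empty_or_nonempty with rfl | hs
    · simp
    obtain ⟨m, hm, hmax⟩ := s.exists_max_image (fun x => x.1) hs
    have h1 : (univ.filter (fun y : Fin n => y < m.1 ∧ y ∉ D)) ⊆
        s.biUnion (fun x => univ.filter (fun y : Fin n => y < x.1 ∧ y ∉ D)) :=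
      Finset.subset_biUnion_of_mem (fun x : {x // x ∈ D} =>
        univ.filter (fun y : Fin n => y < x.1 ∧ y ∉ D)) hm
    refine le_trans ?_ (Finset.card_le_card h1)
    have h2 : s.card ≤ (D.filter (· < m.1)).card + 1 := by
      have : s.map (Function.Embedding.subtype _) ⊆ insert m.1 (D.filter (· < m.1)) := by
        intro x hx
        rw [Finset.mem_map] at hx
        obtain ⟨y, hy, rfl⟩ := hx
        have := hmax y hy
        rw [Finset.mem_insert, Finset.mem_filter]
        rcases this.lt_or_eq with h | h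
        · right; exact ⟨y.2, h⟩
        · left; exact h
      have := Finset.card_le_card this
      rw [Finset.card_map] at this
      exact this.trans (Finset.card_insert_le _ _)
    have h3 : (univ.filter (fun y : Fin n => y < m.1 ∧ y ∉ D)).card +
        (D.filter (· < m.1)).card = m.1.val := by
      have e1 : (univ.filter (fun y : Fin n => y < m.1)).card = m.1.val := by
        have : (univ.filter (fun y : Fin n => y < m.1)) = Finset.Iio m.1 := by
          ext y; simp
        rw [this, Fin.card_Iio]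
      rw [← e1, ← Finset.card_filter_add_card_filter_not (s := univ.filter (fun y : Fin n => y < m.1))
        (fun y => y ∉ D)]
      congr 1
      · rw [Finset.filter_filter]
      · rw [Finset.filter_filter]
        congr 1
        ext y
        simp [and_comm]
    have h4 := h m.1 m.2
    omega
  obtain ⟨f, hf1, hf2⟩ := hall
  refine ⟨fun x => if hx : x ∈ D then f ⟨x, hx⟩ else x, ?_, ?_, ?_⟩
  · intro x hx y hy hxy
    rw [Finset.mem_coe] at hx hy
    simp only [hx, hy, dif_pos] at hxy
    have := hf1 hxy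
    simpa using this
  · intro x hx
    simp only [hx, dif_pos]
    have := hf2 ⟨x, hx⟩
    rw [Finset.mem_filter] at this
    exact this.2.1
  · intro x hx
    simp only [hx, dif_pos]
    have := hf2 ⟨x, hx⟩
    rw [Finset.mem_filter] at this
    exact this.2.2

/-- The elements smaller than `m`. -/
def pre (m : ℕ) : Finset (Fin n) := univ.filter (fun x => x.val < m)

theorem mem_pre {m : ℕ} {x : Fin n} : x ∈ (pre m : Finset (Fin n)) ↔ x.val < m := by
  simp [pre]

theorem card_pre {m : ℕ} (h : m ≤ n) : (pre m : Finset (Fin n)).card = m := by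
  have : (pre m : Finset (Fin n)) = (Finset.univ : Finset (Fin m)).map (Fin.castLEEmb h) := by
    ext x
    simp only [mem_pre, Finset.mem_map, Finset.mem_univ, true_and]
    constructor
    · intro hx
      exact ⟨⟨x.val, hx⟩, by ext; simp⟩
    · rintro ⟨y, rfl⟩
      simp
  rw [this, Finset.card_map, Finset.card_univ, Fintype.card_fin]

theorem pre_mono {a b : ℕ} (h : a ≤ b) : (pre a : Finset (Fin n)) ⊆ pre b := by
  intro x
  simp only [mem_pre]
  omega

/-- Number of elements of `A` below `m`. -/
def hc (A : Finset (Fin n)) (m : ℕ) : ℕ := (A ∩ pre m).card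

theorem hc_mono (A : Finset (Fin n)) {a b : ℕ} (h : a ≤ b) : hc A a ≤ hc A b :=
  Finset.card_le_card (Finset.inter_subset_inter_left (pre_mono h))

theorem hc_succ (A : Finset (Fin n)) (a : ℕ) : hc A (a+1) ≤ hc A a + 1 := by
  unfold hc
  by_cases h : a < n
  · have : A ∩ pre (a+1) ⊆ insert ⟨a, h⟩ (A ∩ pre a) := by
      intro x hx
      simp only [Finset.mem_inter, mem_pre, Finset.mem_insert] at hx ⊢
      by_cases hxa : x.val = a
      · left; ext; exact hxa
      · right; exact ⟨hx.1, by omega⟩
    exact (Finset.card_le_card this).trans (Finset.card_insert_le _ _)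
  · have : A ∩ pre (a+1) ⊆ (A ∩ pre a) := by
      intro x hx
      simp only [Finset.mem_inter, mem_pre] at hx ⊢
      have := x.2
      exact ⟨hx.1, by omega⟩
    exact (Finset.card_le_card this).trans (Nat.le_succ _)

theorem hc_le_card (A : Finset (Fin n)) (a : ℕ) : hc A a ≤ A.card :=
  Finset.card_le_card Finset.inter_subset_left

/-- `i` is the first index with `|A ∩ [0, 2i)| = i`. -/
def FH (i : ℕ) (A : Finset (Fin n)) : Prop :=
  1 ≤ i ∧ hc A (2*i) = i ∧ ∀ m, 1 ≤ m → m < i → hc A (2*m) ≠ m

theorem FH_unique {i j : ℕ} {A : Finset (Fin n)} (hi : FH i A) (hj : FH j A) : i = j := by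
  rcases lt_trichotomy i j with h | h | h
  · exact absurd hi.2.1 (hj.2.2 i hi.1 h)
  · exact h
  · exact absurd hj.2.1 (hi.2.2 j hj.1 h)

theorem FH_low {i : ℕ} {A : Finset (Fin n)} {z : Fin n} (hz : z.val = 0) (hzA : z ∉ A)
    (hi : FH i A) : ∀ m, 1 ≤ m → m < i → hc A (2*m) < m := by
  intro m hm
  induction m, hm using Nat.le_induction with
  | base =>
    intro h1
    have h2 := hi.2.2 1 le_rfl h1
    have h3 : hc A (2*1) ≤ hc A 1 + 1 := hc_succ A 1
    have h4 : hc A 1 = 0 := by
      unfold hc
      rw [Finset.card_eq_zero, Finset.eq_empty_iff_forall_notMem]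
      intro x hx
      simp only [Finset.mem_inter, mem_pre] at hx
      apply hzA
      have : z = x := by ext; omega
      rw [this]; exact hx.1
    omega
  | succ m hm ih =>
    intro h1
    have h2 := hi.2.2 (m+1) (by omega) h1
    have h3 := ih (by omega)
    have h4 : hc A (2*m+1+1) ≤ hc A (2*m+1) + 1 := hc_succ A _
    have h5 : hc A (2*m+1) ≤ hc A (2*m) + 1 := hc_succ A _
    have h6 : 2*(m+1) = 2*m+1+1 := by ring
    rw [h6] at h2 ⊢
    omega

theorem filter_lt_eq (A : Finset (Fin n)) (x : Fin n) :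
    (A.filter (· < x)).card = hc A x.val := by
  unfold hc
  congr 1
  ext y
  simp only [Finset.mem_filter, Finset.mem_inter, mem_pre, Fin.lt_def]

theorem FH_dom {i : ℕ} {A : Finset (Fin n)} {z : Fin n} (hz : z.val = 0) (hzA : z ∉ A)
    (hi : FH i A) : ∀ x ∈ A ∩ pre (2*i), 2 * ((A ∩ pre (2*i)).filter (· < x)).card + 1 ≤ x.val := by
  intro x hx
  have h1 : ((A ∩ pre (2*i)).filter (· < x)).card ≤ (A.filter (· < x)).card :=
    Finset.card_le_card (Finset.filter_subset_filter _ Finset.inter_subset_left)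
  rw [filter_lt_eq A x] at h1
  simp only [Finset.mem_inter, mem_pre] at hx
  have hx0 : x.val ≠ 0 := by
    intro h
    apply hzA
    have : z = x := by ext; omega
    rw [this]; exact hx.1
  obtain ⟨m, hm⟩ : ∃ m, x.val = 2*m ∨ x.val = 2*m+1 := ⟨x.val/2, by omega⟩
  rcases hm with hm | hm
  · have h2 := FH_low hz hzA hi m (by omega) (by omega)
    rw [hm] at h1
    omega
  · rcases Nat.eq_zero_or_pos m with h0 | h0
    · subst h0
      have h4 : hc A 1 = 0 := by
        unfold hc
        rw [Finset.card_eq_zero, Finset.eq_empty_iff_forall_notMem]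
        intro y hy
        simp only [Finset.mem_inter, mem_pre] at hy
        apply hzA
        have : z = y := by ext; omega
        rw [this]; exact hy.1
      rw [hm] at h1
      simp only [mul_zero, zero_add] at h1
      omega
    · have h2 := FH_low hz hzA hi m h0 (by omega)
      have h3 : hc A (2*m+1) ≤ hc A (2*m) + 1 := hc_succ A _
      rw [hm] at h1
      omega

theorem shifted_move {F : Finset (Finset (Fin n))} (hF : Shifted F) (D f : Finset (Fin n))
    (ρ : Fin n → Fin n) (hinj : Set.InjOn ρ D) (hlt : ∀ x ∈ D, ρ x < x)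
    (hD : ∀ x ∈ D, ρ x ∉ D) (hf : ∀ x ∈ D, ρ x ∉ f) (hDf : Disjoint D f)
    (h : D ∪ f ∈ F) : D.image ρ ∪ f ∈ F := by
  classical
  have hg : ShMono (fun A => if A ∈ F then 1 else 0) := by
    intro A i j hij hj hi
    by_cases hA : A ∈ F
    · simp [hA, hF A hA i j hij hj hi]
    · simp [hA]
  have := shift_move _ hg D f ρ hinj hlt hD hf hDf
  simp only [h, if_true] at this
  by_contra hc
  simp [hc] at this

theorem exists_FH {F : Finset (Finset (Fin n))} (hF : Shifted F)
    (hI : ∀ A ∈ F, ∀ B ∈ F, ¬ Disjoint A B) {A : Finset (Fin n)} (hA : A ∈ F)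
    {z : Fin n} (hz : z.val = 0) (hzA : z ∉ A) : ∃ i, FH i A := by
  classical
  have h1 : ∃ x ∈ A, ¬ (2 * (A.filter (· < x)).card + 1 ≤ x.val) := by
    by_contra hcon
    push Not at hcon
    obtain ⟨ρ, hinj, hlt, hD⟩ := rho_exists A hcon
    have := shifted_move hF A ∅ ρ hinj hlt hD (by simp) (by simp) (by simpa using hA)
    rw [Finset.union_empty] at this
    apply hI _ this _ hA
    rw [Finset.disjoint_left]
    intro y hy
    rw [Finset.mem_image] at hy
    obtain ⟨x, hx, rfl⟩ := hy
    exact hD x hx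
  obtain ⟨x, hxA, hx⟩ := h1
  rw [filter_lt_eq] at hx
  have hx1 : hc A (x.val+1) = hc A x.val + 1 := by
    unfold hc
    have : A ∩ pre (x.val+1) = insert x (A ∩ pre x.val) := by
      ext y
      simp only [Finset.mem_inter, mem_pre, Finset.mem_insert]
      constructor
      · intro hy
        by_cases hxa : y.val = x.val
        · left; ext; exact hxa
        · right; exact ⟨hy.1, by omega⟩
      · rintro (rfl | hy)
        · exact ⟨hxA, by omega⟩
        · exact ⟨hy.1, by omega⟩
    rw [this, Finset.card_insert_of_notMem]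
    simp [mem_pre]
  have hex : ∃ i, 1 ≤ i ∧ i ≤ hc A (2*i) := by
    refine ⟨(x.val + 2)/2, by omega, ?_⟩
    have : hc A (x.val+1) ≤ hc A (2*((x.val+2)/2)) := hc_mono A (by omega)
    omega
  obtain ⟨hi1, hi2⟩ := Nat.find_spec hex
  set i := Nat.find hex with hidef
  have hmin : ∀ m, m < i → ¬ (1 ≤ m ∧ m ≤ hc A (2*m)) := fun m hm => Nat.find_min hex hm
  refine ⟨i, hi1, ?_, ?_⟩
  · apply le_antisymm _ hi2
    rcases Nat.lt_or_ge 1 i with h | h
    · have h2 := hmin (i-1) (by omega)
      have h4 : hc A (2*(i-1)+1+1) ≤ hc A (2*(i-1)+1) + 1 := hc_succ A _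
      have h5 : hc A (2*(i-1)+1) ≤ hc A (2*(i-1)) + 1 := hc_succ A _
      have h6 : 2*i = 2*(i-1)+1+1 := by omega
      rw [h6]
      omega
    · have h1 : i = 1 := by omega
      rw [h1]
      have h4 : hc A 1 = 0 := by
        unfold hc
        rw [Finset.card_eq_zero, Finset.eq_empty_iff_forall_notMem]
        intro y hy
        simp only [Finset.mem_inter, mem_pre] at hy
        apply hzA
        have : z = y := by ext; omega
        rw [this]; exact hy.1
      have h5 : hc A (2*1) ≤ hc A 1 + 1 := hc_succ A _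
      omega
  · intro m hm1 hm2 hm3
    exact hmin m hm2 ⟨hm1, hm3.symm.le⟩

/-- The partner of `A`: complement the set on `[0, 2i)`. -/
def pt (i : ℕ) (A : Finset (Fin n)) : Finset (Fin n) := (pre (2*i) \ A) ∪ (A \ pre (2*i))

theorem mem_pt {i : ℕ} {A : Finset (Fin n)} {x : Fin n} :
    x ∈ pt i A ↔ (x.val < 2*i ∧ x ∉ A) ∨ (2*i ≤ x.val ∧ x ∈ A) := by
  simp only [pt, Finset.mem_union, Finset.mem_sdiff, mem_pre, not_lt]
  tauto

theorem hc_pt {i m : ℕ} {A : Finset (Fin n)} (hm : m ≤ 2*i) (hn : m ≤ n) :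
    hc (pt i A) m + hc A m = m := by
  unfold hc
  have h1 : pt i A ∩ pre m = pre m \ A := by
    ext x
    simp only [Finset.mem_inter, mem_pt, mem_pre, Finset.mem_sdiff]
    constructor
    · rintro ⟨h | h, h'⟩
      · exact ⟨h', h.2⟩
      · omega
    · intro h
      exact ⟨Or.inl ⟨by omega, h.2⟩, h.1⟩
  rw [h1, Finset.inter_comm A]
  rw [Finset.card_sdiff_add_card_inter, card_pre hn]

theorem FH_pt {i : ℕ} {A : Finset (Fin n)} (hi : FH i A) (hn : 2*i ≤ n) : FH i (pt i A) := by
  refine ⟨hi.1, ?_, ?_⟩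
  · have := hc_pt (A := A) (i := i) (m := 2*i) le_rfl hn
    have h2 := hi.2.1
    omega
  · intro m h1 h2 h3
    have := hc_pt (A := A) (i := i) (m := 2*m) (by omega) (by omega)
    have h4 := hi.2.2 m h1 h2
    omega

theorem pt_mono {i : ℕ} {A : Finset (Fin n)} {z : Fin n} (hz : z.val = 0) (hzA : z ∉ A)
    (hi : FH i A) (hn : 2*i ≤ n) (g : Finset (Fin n) → ℕ) (hg : ShMono g) :
    g A ≤ g (pt i A) := by
  classical
  obtain ⟨ρ, hinj, hlt, hD⟩ := rho_exists (A ∩ pre (2*i)) (FH_dom hz hzA hi)
  have h1 : A = (A ∩ pre (2*i)) ∪ (A \ pre (2*i)) := by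
    ext x; simp only [Finset.mem_union, Finset.mem_inter, Finset.mem_sdiff]; tauto
  have hsub : (A ∩ pre (2*i)).image ρ ⊆ pre (2*i) \ A := by
    intro y hy
    rw [Finset.mem_image] at hy
    obtain ⟨x, hx, rfl⟩ := hy
    have h2 := hlt x hx
    have h3 := hD x hx
    simp only [Finset.mem_inter, mem_pre, Finset.mem_sdiff, not_and, not_lt] at hx h3 ⊢
    have h4 : (ρ x).val < x.val := h2
    refine ⟨by omega, fun h => ?_⟩
    have := h3 h
    omega
  have hcard : (pre (2*i) \ A).card ≤ ((A ∩ pre (2*i)).image ρ).card := by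
    rw [Finset.card_image_of_injOn hinj]
    have h2 : (pre (2*i) \ A).card + (pre (2*i) ∩ A).card = 2*i := by
      rw [Finset.card_sdiff_add_card_inter, card_pre hn]
    rw [Finset.inter_comm] at h2
    have h3 : (A ∩ pre (2*i)).card = i := hi.2.1
    omega
  have heq := Finset.eq_of_subset_of_card_le hsub hcard
  have h2 := shift_move g hg (A ∩ pre (2*i)) (A \ pre (2*i)) ρ hinj hlt hD
    (by
      intro x hx h
      have h3 := hlt x hx
      simp only [Finset.mem_inter, mem_pre, Finset.mem_sdiff, not_lt] at hx h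
      have h4 : (ρ x).val < x.val := h3
      omega)
    (by
      rw [Finset.disjoint_left]
      intro x hx h
      simp only [Finset.mem_inter, mem_pre, Finset.mem_sdiff, not_lt] at hx h
      omega)
  rw [heq, ← h1] at h2
  exact h2

end Pool.Agent.DPS
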