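import Pool.Agent.DPS.Shift

namespace Pool.Agent.DPS

open Finset

variable {n : ℕ}

theorem mem_star {k : ℕ} {z : Fin n} {A : Finset (Fin n)} :
    A ∈ starF k z ↔ A.card = k ∧ z ∈ A := by
  simp [starF, Finset.mem_powersetCard]

theorem unshift (k : ℕ) (hk : 2 ≤ k) (hn : 3*k ≤ n+1) (i j : Fin n) (hij : i ≠ j)
    (F : Finset (Finset (Fin n)))
    (hI : ∀ A ∈ F, ∀ B ∈ F, ¬ Disjoint A B) (x : Fin n) (hx : sh i j F = starF k x) :
    ∃ y, F = starF k y := by
  classical
  have hcard : ∀ y : Fin n, F.card = (starF k y).card := by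
    intro y
    rw [← card_sh i j F, hx, card_star k (by omega), card_star k (by omega)]
  have hfix : ∀ A : Finset (Fin n), (i ∈ A ↔ j ∈ A) → A ∈ sh i j F → A ∈ F := by
    intro A h hA
    rw [mem_sh] at hA
    have h1 := hA.2 (by tauto)
    rw [sw_eq_self h] at h1
    exact h1.elim id id
  -- existence of small sets avoiding a given set
  have hav : ∀ B : Finset (Fin n), B.card + (k-1) ≤ n → ∃ H : Finset (Fin n),
      H.card = k - 1 ∧ Disjoint H B := by
    intro B hB
    have : k - 1 ≤ (univ \ B).card := by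
      rw [Finset.card_sdiff_of_subset (Finset.subset_univ _), Finset.card_univ,
        Fintype.card_fin]
      omega
    obtain ⟨H, hH1, hH2⟩ := Finset.exists_subset_card_eq this
    refine ⟨H, hH2, ?_⟩
    rw [Finset.disjoint_left]
    intro y hy
    exact (Finset.mem_sdiff.mp (hH1 hy)).2
  by_cases hxi : x = i
  · subst hxi
    -- every `H` has a colour
    have hcol : ∀ H : Finset (Fin n), H.card = k-1 → x ∉ H → j ∉ H →
        (insert x H ∈ F ∨ insert j H ∈ F) := by
      intro H hH hxH hjH
      have h1 : insert x H ∈ sh x j F := by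
        rw [hx, mem_star, Finset.card_insert_of_notMem hxH]
        exact ⟨by omega, Finset.mem_insert_self _ _⟩
      rw [mem_sh] at h1
      have h2 : ¬ (j ∈ insert x H ∧ x ∉ insert x H) := fun h => h.2 (Finset.mem_insert_self _ _)
      have h3 : sw x j (insert x H) = insert j H := by
        ext y
        by_cases hy1 : y = x
        · subst hy1; rw [mem_sw_left]; simp [hij.symm, hjH, hij, hxH]
        · by_cases hy2 : y = j
          · subst hy2; rw [mem_sw_right]; simp
          · rw [mem_sw_other hy1 hy2]; simp [hy1, hy2]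
      have h4 := h1.2 h2
      rw [h3] at h4
      exact h4
    have hdich : (∀ H : Finset (Fin n), H.card = k-1 → x ∉ H → j ∉ H → insert x H ∈ F) ∨
        (∀ H : Finset (Fin n), H.card = k-1 → x ∉ H → j ∉ H → insert j H ∈ F) := by
      by_contra hcon
      push Not at hcon
      obtain ⟨⟨H1, hc1, hx1, hj1, hn1⟩, ⟨H2, hc2, hx2, hj2, hn2⟩⟩ := hcon
      have hf1 : insert j H1 ∈ F := (hcol H1 hc1 hx1 hj1).resolve_left hn1
      have hf2 : insert x H2 ∈ F := (hcol H2 hc2 hx2 hj2).resolve_right hn2
      obtain ⟨H3, hc3, hd3⟩ := hav ({x, j} ∪ H1 ∪ H2) (by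
        have h1 := Finset.card_union_le ({x, j} ∪ H1) H2
        have h2 := Finset.card_union_le ({x, j} : Finset (Fin n)) H1
        have h3 := Finset.card_le_two (a := x) (b := j)
        omega)
      rw [Finset.disjoint_left] at hd3
      have hx3 : x ∉ H3 := fun h => hd3 h (by simp)
      have hj3 : j ∉ H3 := fun h => hd3 h (by simp)
      rcases hcol H3 hc3 hx3 hj3 with h | h
      · apply hI _ h _ hf1
        rw [Finset.disjoint_left]
        intro y hy hy'
        rw [Finset.mem_insert] at hy hy'
        rcases hy with rfl | hy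
        · rcases hy' with h' | h'
          · exact hij h'
          · exact hx1 h'
        · rcases hy' with rfl | h'
          · exact hj3 hy
          · exact hd3 hy (by simp [h'])
      · apply hI _ h _ hf2
        rw [Finset.disjoint_left]
        intro y hy hy'
        rw [Finset.mem_insert] at hy hy'
        rcases hy with rfl | hy
        · rcases hy' with h' | h'
          · exact hij h'.symm
          · exact hj2 h'
        · rcases hy' with rfl | h'
          · exact hx3 hy
          · exact hd3 hy (by simp [h'])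
    rcases hdich with hd | hd
    · refine ⟨x, (Finset.eq_of_subset_of_card_le ?_ (hcard x).le).symm⟩
      intro A hA
      rw [mem_star] at hA
      by_cases hjA : j ∈ A
      · exact hfix A (by simp [hA.2, hjA]) (by rw [hx, mem_star]; exact hA)
      · rw [← Finset.insert_erase hA.2]
        apply hd
        · rw [Finset.card_erase_of_mem hA.2, hA.1]
        · exact Finset.notMem_erase _ _
        · exact fun h => hjA (Finset.mem_of_mem_erase h)
    · refine ⟨j, (Finset.eq_of_subset_of_card_le ?_ (hcard j).le).symm⟩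
      intro A hA
      rw [mem_star] at hA
      by_cases hxA : x ∈ A
      · exact hfix A (by simp [hA.2, hxA]) (by rw [hx, mem_star]; exact ⟨hA.1, hxA⟩)
      · rw [← Finset.insert_erase hA.2]
        apply hd
        · rw [Finset.card_erase_of_mem hA.2, hA.1]
        · exact fun h => hxA (Finset.mem_of_mem_erase h)
        · exact Finset.notMem_erase _ _
  · by_cases hxj : x = j
    · exfalso
      subst hxj
      obtain ⟨H, hH1, hH2⟩ := hav {i, x} (by
        have h3 := Finset.card_le_two (a := i) (b := x)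
        omega)
      rw [Finset.disjoint_left] at hH2
      have hiH : i ∉ H := fun h => hH2 h (by simp)
      have hxH : x ∉ H := fun h => hH2 h (by simp)
      have h1 : insert x H ∈ sh i x F := by
        rw [hx, mem_star, Finset.card_insert_of_notMem hxH]
        exact ⟨by omega, Finset.mem_insert_self _ _⟩
      rw [mem_sh] at h1
      have h2 := (h1.1 ⟨Finset.mem_insert_self _ _, by simp [hij, hiH]⟩).2
      have h3 : sw i x (insert x H) ∈ sh i x F := by
        rw [mem_sh]
        refine ⟨fun h => ?_, fun _ => Or.inl h2⟩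
        exfalso
        apply h.2
        rw [mem_sw_left]
        exact Finset.mem_insert_self _ _
      rw [hx, mem_star, mem_sw_right] at h3
      have := h3.2
      simp [hij, hiH] at this
    · refine ⟨x, (Finset.eq_of_subset_of_card_le ?_ (hcard x).le).symm⟩
      intro A hA
      have hA' : A ∈ sh i j F := by rw [hx]; exact hA
      by_cases h : i ∈ A ↔ j ∈ A
      · exact hfix A h hA'
      · by_cases hj : j ∈ A
        · have hi : i ∉ A := by tauto
          rw [mem_sh] at hA'
          exact (hA'.1 ⟨hj, hi⟩).1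
        · have hi : i ∈ A := by tauto
          have h1 : sw i j A ∈ sh i j F := by
            rw [hx, mem_star, card_sw, mem_sw_other hxi hxj]
            rwa [mem_star] at hA
          rw [mem_sh] at h1
          have h2 := (h1.1 ⟨mem_sw_right.mpr hi, fun h => hj (mem_sw_left.mp h)⟩).2
          rwa [sw_sw] at h2

theorem descent (k r : ℕ) (hr : 1 ≤ r) (hrk : r + 1 ≤ k) (hn : 3*k ≤ n+1) :
    ∀ (N : ℕ) (F : Finset (Finset (Fin n))), pot F = N → (∀ A ∈ F, A.card = k) →
    (∀ A ∈ F, ∀ B ∈ F, ¬ Disjoint A B) →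
    ∑ R ∈ powersetCard r (univ : Finset (Fin n)), (deg F R - (n-r-1).choose (k-r-1)) ≤
      (n-1).choose (r-1) * ((n-r).choose (k-r) - (n-r-1).choose (k-r-1)) ∧
    F.card ≤ (n-1).choose (k-1) ∧
    (F.card = (n-1).choose (k-1) → ∃ y, F = starF k y) := by
  classical
  intro N
  induction N using Nat.strong_induction_on with
  | _ N ih =>
    intro F hpot hU hI
    by_cases hS : Shifted F
    · have hz : (⟨0, by omega⟩ : Fin n).val = 0 := rfl
      have h1 := K_shifted k r hr hrk hn ⟨0, by omega⟩ hz F hU hI hS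
      have h2 := ekr_shifted k (by omega) hn ⟨0, by omega⟩ hz F hU hI hS
      rw [card_star k (by omega)] at h2
      exact ⟨h1, h2.1, fun h => ⟨_, h2.2 h⟩⟩
    · unfold Shifted at hS
      push Not at hS
      obtain ⟨A, hA, i, j, hij, hj, hi, hnot⟩ := hS
      rw [← sw_eq_insert hij.ne hj hi] at hnot
      have hlt := pot_sh hij F ⟨A, hA, hj, hi, hnot⟩
      obtain ⟨h1, h2, h3⟩ := ih (pot (sh i j F)) (hpot ▸ hlt) (sh i j F) rfl
        (sh_unif i j F k hU) (sh_inter i j F hI)
      rw [card_sh] at h2 h3
      refine ⟨?_, h2, ?_⟩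
      · refine le_trans (sum_major i j F r (fun x => x - (n-r-1).choose (k-r-1)) ?_) h1
        intro a b a' b' _ _ _
        omega
      · intro h
        obtain ⟨y, hy⟩ := h3 h
        exact unshift k (by omega) hn i j hij.ne F hI y hy

/-- The degree power sum. -/
noncomputable def lpow (r : ℕ) (p : ℝ) (F : Finset (Finset (Fin n))) : ℝ :=
  ∑ R ∈ powersetCard r (univ : Finset (Fin n)), (deg F R : ℝ) ^ p

theorem pow_le_aux (p D x : ℝ) (hp : 1 ≤ p) (hx : 0 ≤ x) (hxD : x ≤ D) :
    x ^ p ≤ D ^ (p-1) * x := by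
  rcases hx.eq_or_lt with h | h
  · rw [← h, Real.zero_rpow (by linarith)]; simp
  · have h1 : x ^ p = x ^ (p-1) * x := by
      rw [← Real.rpow_add_one h.ne']
      congr 1; ring
    rw [h1]
    apply mul_le_mul_of_nonneg_right _ hx
    exact Real.rpow_le_rpow hx hxD (by linarith)

/-- The pointwise bound. -/
theorem pointwise (p D1 D2 : ℝ) (hp : 1 ≤ p) (hD2 : 0 < D2) (hD : D2 < D1) :
    ∃ a b : ℝ, 0 < a ∧ 0 ≤ b ∧ (∀ x, 0 ≤ x → x ≤ D1 → x ^ p ≤ a * x + b * max (x - D2) 0) ∧
      D1 ^ p = a * D1 + b * (D1 - D2) ∧ D2 ^ p = a * D2 := by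
  have hD1 : 0 < D1 := hD2.trans hD
  have hpos : 0 < D2 ^ (p-1) := Real.rpow_pos_of_pos hD2 _
  have h2 : D2 ^ p = D2 ^ (p-1) * D2 := by
    rw [← Real.rpow_add_one hD2.ne']
    congr 1; ring
  have h1 : D1 ^ p = D1 ^ (p-1) * D1 := by
    rw [← Real.rpow_add_one hD1.ne']
    congr 1; ring
  have h12 : D2 ^ (p-1) ≤ D1 ^ (p-1) := Real.rpow_le_rpow hD2.le hD.le (by linarith)
  set a := D2 ^ (p-1) with ha
  set b := (D1 ^ p - a * D1) / (D1 - D2) with hb
  have hsub : 0 < D1 - D2 := by linarith
  have hb0 : 0 ≤ b := by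
    rw [hb]
    apply div_nonneg _ hsub.le
    rw [h1]
    nlinarith
  have hbeq : b * (D1 - D2) = D1 ^ p - a * D1 := by
    rw [hb]; field_simp
  refine ⟨a, b, hpos, hb0, ?_, by rw [hbeq]; ring, h2⟩
  intro x hx0 hx1
  rcases le_total x D2 with h | h
  · have := pow_le_aux p D2 x hp hx0 h
    have h3 : 0 ≤ b * max (x - D2) 0 := mul_nonneg hb0 (le_max_right _ _)
    linarith
  · rw [max_eq_left (by linarith)]
    have hconv := (convexOn_rpow hp).2 (Set.mem_Ici.mpr hD2.le)
      (Set.mem_Ici.mpr hD1.le)
      (div_nonneg (by linarith : (0:ℝ) ≤ D1 - x) hsub.le)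
      (div_nonneg (by linarith : (0:ℝ) ≤ x - D2) hsub.le)
      (by field_simp; ring)
    simp only [smul_eq_mul] at hconv
    have e1 : (D1 - x)/(D1 - D2) * D2 + (x - D2)/(D1 - D2) * D1 = x := by
      field_simp; ring
    rw [e1] at hconv
    refine hconv.trans (le_of_eq ?_)
    rw [h2]
    have hne : D1 - D2 ≠ 0 := hsub.ne'
    have e2 : D1 ^ p = b * (D1 - D2) + a * D1 := by rw [hbeq]; ring
    rw [e2]
    field_simp
    ring

theorem deg_le (k : ℕ) (F : Finset (Finset (Fin n))) (hU : ∀ A ∈ F, A.card = k)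
    (R : Finset (Fin n)) (hR : R.card ≤ k) : deg F R ≤ (n - R.card).choose (k - R.card) := by
  classical
  rw [← card_sup k R hR]
  apply Finset.card_le_card
  intro A hA
  rw [Finset.mem_filter] at hA ⊢
  exact ⟨Finset.mem_powersetCard.mpr ⟨Finset.subset_univ _, hU A hA.1⟩, hA.2⟩

theorem sum_deg_one (k r : ℕ) (F : Finset (Finset (Fin n))) (hU : ∀ A ∈ F, A.card = k) :
    ∑ R ∈ powersetCard r (univ : Finset (Fin n)), deg F R = k.choose r * F.card := by
  have h := sum_deg r F (fun _ => 1)
  simp only [one_mul] at h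
  rw [← h]
  rw [Finset.sum_congr rfl (g := fun _ => k.choose r)]
  · rw [Finset.sum_const, smul_eq_mul, mul_comm]
  · intro A hA
    rw [Finset.sum_const, Finset.card_powersetCard, smul_eq_mul, mul_one, hU A hA]

theorem lpow_le (k r : ℕ) (p : ℝ) (hr : 1 ≤ r) (hrk : r + 1 ≤ k) (hn : 3*k ≤ n+1)
    (hp : 1 ≤ p) (F : Finset (Finset (Fin n))) (hU : ∀ A ∈ F, A.card = k)
    (hI : ∀ A ∈ F, ∀ B ∈ F, ¬ Disjoint A B) (z : Fin n) :
    lpow r p F ≤ lpow r p (starF k z) ∧
      (lpow r p F = lpow r p (starF k z) → ∃ y, F = starF k y) := by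
  classical
  obtain ⟨hK, hE, hEq⟩ := descent k r hr hrk hn (pot F) F rfl hU hI
  set D2 := (n-r-1).choose (k-r-1) with hD2
  set D1 := (n-r).choose (k-r) with hD1
  have hD2pos : 0 < D2 := Nat.choose_pos (by omega)
  have hD12 : D2 < D1 := by
    have := two_choose_le (n-r) (k-r) (by omega) (by omega)
    omega
  obtain ⟨a, b, ha, hb, hpt, e1, e2⟩ := pointwise p D1 D2 hp (by exact_mod_cast hD2pos)
    (by exact_mod_cast hD12)
  have hcast : ∀ m : ℕ, ((m - D2 : ℕ) : ℝ) = max ((m : ℝ) - D2) 0 := by
    intro m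
    rcases le_total D2 m with h | h
    · rw [Nat.cast_sub h, max_eq_left]
      have : (D2 : ℝ) ≤ m := by exact_mod_cast h
      linarith
    · rw [Nat.sub_eq_zero_of_le h, max_eq_right, Nat.cast_zero]
      have : (m : ℝ) ≤ D2 := by exact_mod_cast h
      linarith
  -- upper bound for `F`
  have hupF : lpow r p F ≤ a * (k.choose r * F.card) +
      b * ((n-1).choose (r-1) * (D1 - D2 : ℕ)) := by
    have h1 : lpow r p F ≤ ∑ R ∈ powersetCard r (univ : Finset (Fin n)),
        (a * (deg F R : ℝ) + b * ((deg F R - D2 : ℕ) : ℝ)) := by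
      apply Finset.sum_le_sum
      intro R hR
      rw [Finset.mem_powersetCard] at hR
      rw [hcast]
      apply hpt
      · exact Nat.cast_nonneg _
      · have := deg_le k F hU R (by omega)
        rw [hR.2] at this
        exact_mod_cast this
    refine h1.trans ?_
    rw [Finset.sum_add_distrib, ← Finset.mul_sum, ← Finset.mul_sum]
    apply add_le_add
    · apply le_of_eq
      congr 1
      have := sum_deg_one k r F hU
      exact_mod_cast this
    · apply mul_le_mul_of_nonneg_left _ hb
      exact_mod_cast hK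
  -- value for the star
  have hstar : lpow r p (starF k z) = a * (k.choose r * (starF k z).card) +
      b * ((n-1).choose (r-1) * (D1 - D2 : ℕ)) := by
    have hUs : ∀ A ∈ starF k z, A.card = k := fun A hA => (mem_star.mp hA).1
    have h1 : ∀ R ∈ powersetCard r (univ : Finset (Fin n)),
        (deg (starF k z) R : ℝ) ^ p = a * (deg (starF k z) R : ℝ) +
          b * ((if z ∈ R then (D1 - D2 : ℕ) else 0 : ℕ) : ℝ) := by
      intro R hR
      rw [Finset.mem_powersetCard] at hR
      by_cases hzR : z ∈ R
      · have h2 := deg_star_mem k z R (by omega) hzR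
        rw [hR.2] at h2
        rw [h2, if_pos hzR, Nat.cast_sub hD12.le]
        exact e1
      · have h2 := deg_star_notMem k z R (by omega) hzR
        rw [hR.2] at h2
        rw [h2, if_neg hzR]
        simp only [Nat.cast_zero, mul_zero, add_zero]
        exact e2
    unfold lpow
    rw [Finset.sum_congr rfl h1, Finset.sum_add_distrib, ← Finset.mul_sum, ← Finset.mul_sum]
    congr 1
    · congr 1
      have := sum_deg_one k r (starF k z) hUs
      exact_mod_cast this
    · congr 1
      rw [← Nat.cast_sum, ← Finset.sum_filter, Finset.sum_const, smul_eq_mul]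
      have := card_sup r ({z} : Finset (Fin n)) (by simpa using hr)
      simp only [Finset.singleton_subset_iff, Finset.card_singleton] at this
      rw [this]
      push_cast
      ring
  have hcs := card_star k (by omega) z
  have hcr : 0 < (k.choose r : ℝ) := by exact_mod_cast Nat.choose_pos (by omega : r ≤ k)
  have hE' : (F.card : ℝ) ≤ (starF k z).card := by rw [hcs]; exact_mod_cast hE
  refine ⟨?_, ?_⟩
  · rw [hstar]
    refine hupF.trans ?_
    have : a * (k.choose r * (F.card : ℝ)) ≤ a * (k.choose r * ((starF k z).card : ℝ)) :=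
      mul_le_mul_of_nonneg_left (mul_le_mul_of_nonneg_left hE' hcr.le) ha.le
    linarith
  · intro heq
    apply hEq
    rw [heq, hstar] at hupF
    have h1 : a * (k.choose r * ((starF k z).card : ℝ)) ≤ a * (k.choose r * (F.card : ℝ)) := by
      linarith
    have h2 : ((starF k z).card : ℝ) ≤ F.card :=
      le_of_mul_le_mul_left (le_of_mul_le_mul_left h1 ha) hcr
    have h3 : (starF k z).card ≤ F.card := by exact_mod_cast h2
    omega

end Pool.Agent.DPS
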