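import Pool.Agent.DPS.Main

namespace Pool.Agent.DPS

open Finset

variable {n : ℕ}

/-- The degree of `R` in the family `F`. -/
def deg (F : Finset (Finset (Fin n))) (R : Finset (Fin n)) : ℕ :=
  (F.filter (fun A => R ⊆ A)).card

/-- The star with centre `z`. -/
def starF (k : ℕ) (z : Fin n) : Finset (Finset (Fin n)) :=
  (powersetCard k (univ : Finset (Fin n))).filter (fun A => z ∈ A)

theorem deg_shift {F : Finset (Finset (Fin n))} (hS : Shifted F) (R : Finset (Fin n))
    (i j : Fin n) (hij : i < j) (hj : j ∈ R) (hi : i ∉ R) :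
    deg F R ≤ deg F (insert i (R.erase j)) := by
  classical
  unfold deg
  apply Finset.card_le_card_of_injOn (fun A => if i ∈ A then A else insert i (A.erase j))
  · intro A hA
    rw [Finset.mem_coe, Finset.mem_filter] at hA
    obtain ⟨hAF, hRA⟩ := hA
    rw [Finset.mem_coe, Finset.mem_filter]
    by_cases h : i ∈ A
    · simp only [h, if_true]
      refine ⟨hAF, ?_⟩
      intro x hx
      rw [Finset.mem_insert, Finset.mem_erase] at hx
      rcases hx with rfl | hx
      · exact h
      · exact hRA hx.2
    · simp only [h, if_false]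
      refine ⟨hS A hAF i j hij (hRA hj) h, ?_⟩
      intro x hx
      rw [Finset.mem_insert, Finset.mem_erase] at hx ⊢
      rcases hx with rfl | hx
      · left; rfl
      · right; exact ⟨hx.1, hRA hx.2⟩
  · intro A hA B hB hAB
    rw [Finset.mem_coe, Finset.mem_filter] at hA hB
    have hjA : j ∈ A := hA.2 hj
    have hjB : j ∈ B := hB.2 hj
    have hne : i ≠ j := hij.ne
    simp only at hAB
    by_cases h : i ∈ A <;> by_cases h' : i ∈ B <;>
      simp only [h, h', if_true, if_false] at hAB
    · exact hAB
    · exfalso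
      have : j ∈ insert i (B.erase j) := hAB ▸ hjA
      simp [hne.symm] at this
    · exfalso
      have : j ∈ insert i (A.erase j) := hAB ▸ hjB
      simp [hne.symm] at this
    · ext x
      have h1 : x ∈ insert i (A.erase j) ↔ x ∈ insert i (B.erase j) := by rw [hAB]
      simp only [Finset.mem_insert, Finset.mem_erase] at h1
      by_cases hxj : x = j
      · subst hxj; tauto
      · by_cases hxi : x = i
        · subst hxi; tauto
        · tauto

/-- number of heavy `r`-subsets -/
def cnt (r D : ℕ) (F : Finset (Finset (Fin n))) (A : Finset (Fin n)) : ℕ :=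
  ((powersetCard r A).filter (fun R => D < deg F R)).card

theorem cnt_shmono (r D : ℕ) {F : Finset (Finset (Fin n))} (hS : Shifted F) :
    ShMono (cnt r D F) := by
  classical
  intro A i j hij hj hi
  unfold cnt
  apply Finset.card_le_card_of_injOn (fun R => if j ∈ R then insert i (R.erase j) else R)
  · intro R hR
    rw [Finset.mem_coe, Finset.mem_filter, Finset.mem_powersetCard] at hR
    obtain ⟨⟨hRA, hRc⟩, hD⟩ := hR
    rw [Finset.mem_coe, Finset.mem_filter, Finset.mem_powersetCard]
    by_cases h : j ∈ R
    · simp only [h, if_true]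
      have hiR : i ∉ R := fun h' => hi (hRA h')
      refine ⟨⟨?_, ?_⟩, ?_⟩
      · intro x hx
        rw [Finset.mem_insert, Finset.mem_erase] at hx ⊢
        rcases hx with rfl | hx
        · left; rfl
        · right; exact ⟨hx.1, hRA hx.2⟩
      · rw [Finset.card_insert_of_notMem, Finset.card_erase_of_mem h]
        · have : 0 < R.card := Finset.card_pos.mpr ⟨j, h⟩
          omega
        · intro h'
          exact hiR (Finset.mem_of_mem_erase h')
      · exact lt_of_lt_of_le hD (deg_shift hS R i j hij h hiR)
    · simp only [h, if_false]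
      refine ⟨⟨?_, hRc⟩, hD⟩
      intro x hx
      rw [Finset.mem_insert, Finset.mem_erase]
      right
      refine ⟨?_, hRA hx⟩
      rintro rfl
      exact h hx
  · intro R hR Q hQ hRQ
    rw [Finset.mem_coe, Finset.mem_filter, Finset.mem_powersetCard] at hR hQ
    have hiR : i ∉ R := fun h' => hi (hR.1.1 h')
    have hiQ : i ∉ Q := fun h' => hi (hQ.1.1 h')
    simp only at hRQ
    by_cases h : j ∈ R <;> by_cases h' : j ∈ Q <;>
      simp only [h, h', if_true, if_false] at hRQ
    · ext x
      have h1 : x ∈ insert i (R.erase j) ↔ x ∈ insert i (Q.erase j) := by rw [hRQ]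
      simp only [Finset.mem_insert, Finset.mem_erase] at h1
      by_cases hxj : x = j
      · subst hxj; tauto
      · by_cases hxi : x = i
        · subst hxi; tauto
        · tauto
    · exfalso
      apply hiQ
      rw [← hRQ]; exact Finset.mem_insert_self _ _
    · exfalso
      apply hiR
      rw [hRQ]; exact Finset.mem_insert_self _ _
    · exact hRQ

/-- The weight of an `r`-set. -/
def om (z : Fin n) (D : ℕ) (F : Finset (Finset (Fin n))) (R : Finset (Fin n)) : ℕ :=
  if D < deg F R then 2 else if z ∈ R then 1 else 0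

/-- The weight of a set. -/
def WW (r : ℕ) (z : Fin n) (D : ℕ) (F : Finset (Finset (Fin n))) (A : Finset (Fin n)) : ℕ :=
  ∑ R ∈ powersetCard r A, om z D F R

theorem cnt_le_WW (r : ℕ) (z : Fin n) (D : ℕ) (F : Finset (Finset (Fin n)))
    (A : Finset (Fin n)) : 2 * cnt r D F A ≤ WW r z D F A := by
  classical
  unfold cnt WW
  rw [Finset.card_filter, Finset.mul_sum]
  apply Finset.sum_le_sum
  intro R _
  unfold om
  split_ifs <;> omega

theorem WW_insert (q : ℕ) (z : Fin n) (D : ℕ) (F : Finset (Finset (Fin n)))
    (P : Finset (Fin n)) (x : Fin n) (hx : x ∉ P) :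
    WW (q+1) z D F (insert x P) = WW (q+1) z D F P +
      ∑ Q ∈ powersetCard q P, om z D F (insert x Q) := by
  classical
  unfold WW
  rw [Finset.powersetCard_succ_insert hx, Finset.sum_union, Finset.sum_image]
  · intro Q hQ Q' hQ' h
    rw [Finset.mem_coe, Finset.mem_powersetCard] at hQ hQ'
    have h1 : x ∉ Q := fun h => hx (hQ.1 h)
    have h2 : x ∉ Q' := fun h => hx (hQ'.1 h)
    have : (insert x Q).erase x = (insert x Q').erase x := by rw [h]
    rwa [Finset.erase_insert h1, Finset.erase_insert h2] at this
  · rw [Finset.disjoint_left]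
    intro R hR hR'
    rw [Finset.mem_powersetCard] at hR
    rw [Finset.mem_image] at hR'
    obtain ⟨Q, _, rfl⟩ := hR'
    exact hx (hR.1 (Finset.mem_insert_self _ _))

theorem WW_line (q : ℕ) (z : Fin n) (hz : z.val = 0) (D : ℕ) (F : Finset (Finset (Fin n)))
    (hS : Shifted F) (P : Finset (Fin n)) (x b c : Fin n) (hzP : z ∈ P) (hx : x ∉ P)
    (hb : b ∉ P) (hc : c ∉ P) :
    WW (q+1) z D F (insert x P) ≤ WW (q+1) z D F (insert b P) + WW (q+1) z D F (insert c P) := by
  classical
  rw [WW_insert q z D F P x hx, WW_insert q z D F P b hb, WW_insert q z D F P c hc]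
  have h1 := Finset.sum_filter_add_sum_filter_not (powersetCard q P) (fun Q => z ∈ Q)
    (fun Q => om z D F (insert x Q))
  have h2 := Finset.sum_filter_add_sum_filter_not (powersetCard q P) (fun Q => z ∈ Q)
    (fun Q => om z D F (insert b Q))
  have h3 := Finset.sum_filter_add_sum_filter_not (powersetCard q P) (fun Q => z ∈ Q)
    (fun Q => om z D F (insert c Q))
  have h4 : ∑ Q ∈ powersetCard q P with z ∈ Q, om z D F (insert x Q) ≤
      ∑ Q ∈ powersetCard q P with z ∈ Q, om z D F (insert b Q) +
      ∑ Q ∈ powersetCard q P with z ∈ Q, om z D F (insert c Q) := by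
    rw [← Finset.sum_add_distrib]
    apply Finset.sum_le_sum
    intro Q hQ
    rw [Finset.mem_filter] at hQ
    unfold om
    simp only [Finset.mem_insert, hQ.2, or_true, if_true]
    split_ifs <;> omega
  have h5 : ∑ Q ∈ powersetCard q P with z ∉ Q, om z D F (insert x Q) ≤ WW (q+1) z D F P := by
    have hxz : x ≠ z := by rintro rfl; exact hx hzP
    calc ∑ Q ∈ powersetCard q P with z ∉ Q, om z D F (insert x Q)
        ≤ ∑ Q ∈ powersetCard q P with z ∉ Q, om z D F (insert z Q) := by
          apply Finset.sum_le_sum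
          intro Q hQ
          rw [Finset.mem_filter, Finset.mem_powersetCard] at hQ
          have hxQ : x ∉ Q := fun h => hx (hQ.1.1 h)
          have hzx : z < x := by
            rw [Fin.lt_def]
            have : x.val ≠ z.val := fun h => hxz (Fin.ext h)
            omega
          have hzins : z ∉ insert x Q := by
            rw [Finset.mem_insert, not_or]; exact ⟨hxz.symm, hQ.2⟩
          have := deg_shift hS (insert x Q) z x hzx (Finset.mem_insert_self _ _) hzins
          rw [Finset.erase_insert hxQ] at this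
          unfold om
          simp only [hzins, if_false]
          split_ifs <;> omega
      _ = ∑ R ∈ ((powersetCard q P).filter (fun Q => z ∉ Q)).image (insert z), om z D F R := by
          rw [Finset.sum_image]
          intro Q hQ Q' hQ' h
          rw [Finset.mem_coe, Finset.mem_filter] at hQ hQ'
          have : (insert z Q).erase z = (insert z Q').erase z := by rw [h]
          rwa [Finset.erase_insert hQ.2, Finset.erase_insert hQ'.2] at this
      _ ≤ WW (q+1) z D F P := by
          unfold WW
          apply Finset.sum_le_sum_of_subset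
          intro R hR
          rw [Finset.mem_image] at hR
          obtain ⟨Q, hQ, rfl⟩ := hR
          rw [Finset.mem_filter, Finset.mem_powersetCard] at hQ
          rw [Finset.mem_powersetCard]
          refine ⟨Finset.insert_subset hzP hQ.1.1, ?_⟩
          rw [Finset.card_insert_of_notMem hQ.2, hQ.1.2]
  omega

/-- Counting supersets. -/
theorem card_sup (k : ℕ) (R : Finset (Fin n)) (h : R.card ≤ k) :
    ((powersetCard k (univ : Finset (Fin n))).filter (fun A => R ⊆ A)).card =
      (n - R.card).choose (k - R.card) := by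
  classical
  have h1 : (powersetCard (k - R.card) (univ \ R)).card = (n - R.card).choose (k - R.card) := by
    rw [Finset.card_powersetCard, Finset.card_sdiff_of_subset (Finset.subset_univ _),
      Finset.card_univ, Fintype.card_fin]
  rw [← h1]
  refine Finset.card_nbij' (fun A => A \ R) (fun B => B ∪ R) ?_ ?_ ?_ ?_
  · intro A hA
    rw [Finset.mem_coe, Finset.mem_filter, Finset.mem_powersetCard] at hA
    rw [Finset.mem_coe, Finset.mem_powersetCard]
    refine ⟨Finset.sdiff_subset_sdiff (Finset.subset_univ _) (Finset.Subset.refl _), ?_⟩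
    rw [Finset.card_sdiff_of_subset hA.2, hA.1.2]
  · intro B hB
    rw [Finset.mem_coe, Finset.mem_powersetCard] at hB
    rw [Finset.mem_coe, Finset.mem_filter, Finset.mem_powersetCard]
    refine ⟨⟨Finset.subset_univ _, ?_⟩, Finset.subset_union_right⟩
    rw [Finset.card_union_of_disjoint, hB.2]
    · omega
    · rw [Finset.disjoint_left]
      intro x hx
      exact (Finset.mem_sdiff.mp (hB.1 hx)).2
  · intro A hA
    rw [Finset.mem_coe, Finset.mem_filter] at hA
    exact Finset.sdiff_union_of_subset hA.2
  · intro B hB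
    rw [Finset.mem_coe, Finset.mem_powersetCard] at hB
    ext x
    simp only [Finset.mem_sdiff, Finset.mem_union]
    constructor
    · rintro ⟨h | h, h'⟩
      · exact h
      · exact absurd h h'
    · intro h
      exact ⟨Or.inl h, (Finset.mem_sdiff.mp (hB.1 h)).2⟩

theorem deg_star_mem (k : ℕ) (z : Fin n) (R : Finset (Fin n)) (hR : R.card ≤ k) (hz : z ∈ R) :
    deg (starF k z) R = (n - R.card).choose (k - R.card) := by
  classical
  unfold deg starF
  rw [← card_sup k R hR, Finset.filter_filter]
  congr 1
  apply Finset.filter_congr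
  intro A _
  constructor
  · exact fun h => h.2
  · exact fun h => ⟨h hz, h⟩

theorem deg_star_notMem (k : ℕ) (z : Fin n) (R : Finset (Fin n)) (hR : R.card + 1 ≤ k)
    (hz : z ∉ R) :
    deg (starF k z) R = (n - R.card - 1).choose (k - R.card - 1) := by
  classical
  unfold deg starF
  have h := card_sup k (insert z R) (by rw [Finset.card_insert_of_notMem hz]; exact hR)
  rw [Finset.card_insert_of_notMem hz] at h
  rw [Nat.sub_sub, Nat.sub_sub, ← h, Finset.filter_filter]
  congr 1
  apply Finset.filter_congr
  intro A _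
  rw [Finset.insert_subset_iff]

theorem sum_deg (r : ℕ) (F : Finset (Finset (Fin n))) (g : Finset (Fin n) → ℕ) :
    ∑ A ∈ F, ∑ R ∈ powersetCard r A, g R =
      ∑ R ∈ powersetCard r (univ : Finset (Fin n)), g R * deg F R := by
  classical
  have h1 : ∀ A ∈ F, ∑ R ∈ powersetCard r A, g R =
      ∑ R ∈ powersetCard r (univ : Finset (Fin n)), if R ⊆ A then g R else 0 := by
    intro A _
    rw [← Finset.sum_filter]
    apply Finset.sum_congr _ (fun _ _ => rfl)
    ext R
    simp only [Finset.mem_powersetCard, Finset.mem_filter, Finset.subset_univ, true_and]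
    tauto
  rw [Finset.sum_congr rfl h1, Finset.sum_comm]
  apply Finset.sum_congr rfl
  intro R _
  unfold deg
  rw [← Finset.sum_filter, Finset.sum_const, smul_eq_mul, mul_comm]

theorem two_choose_le (m t : ℕ) (ht : 1 ≤ t) (h : 2*t + 1 ≤ m) :
    2 * (m-1).choose (t-1) ≤ m.choose t := by
  obtain ⟨m, rfl⟩ : ∃ m', m = m'+1 := ⟨m-1, by omega⟩
  obtain ⟨t, rfl⟩ : ∃ t', t = t'+1 := ⟨t-1, by omega⟩
  rw [Nat.choose_succ_succ]
  simp only [Nat.add_sub_cancel, Nat.succ_eq_add_one]
  have := Nat.choose_le_succ_of_lt_half_left (r := t) (n := m) (by omega)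
  omega

theorem K_shifted (k r : ℕ) (hr : 1 ≤ r) (hrk : r + 1 ≤ k) (hn : 3*k ≤ n+1) (z : Fin n)
    (hz : z.val = 0) (F : Finset (Finset (Fin n))) (hU : ∀ A ∈ F, A.card = k)
    (hI : ∀ A ∈ F, ∀ B ∈ F, ¬ Disjoint A B) (hS : Shifted F) :
    ∑ R ∈ powersetCard r (univ : Finset (Fin n)), (deg F R - (n-r-1).choose (k-r-1)) ≤
      (n-1).choose (r-1) * ((n-r).choose (k-r) - (n-r-1).choose (k-r-1)) := by
  classical
  obtain ⟨q, rfl⟩ : ∃ q, r = q+1 := ⟨r-1, by omega⟩
  set D2 := (n-(q+1)-1).choose (k-(q+1)-1) with hD2
  set D1 := (n-(q+1)).choose (k-(q+1)) with hD1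
  have hD12 : 2 * D2 ≤ D1 := two_choose_le _ _ (by omega) (by omega)
  have hmain := main_abs k hn z hz F hU hI hS (WW (q+1) z D2 F)
    (by
      intro P x b c _ h1 h2 h3 h4 _ _ _
      exact WW_line q z hz D2 F hS P x b c h1 h2 h3 h4)
    (fun A => 2 * cnt (q+1) D2 F A)
    (by
      intro A _ hzA i hi h2i
      refine le_trans ?_ (cnt_le_WW (q+1) z D2 F (pt i A))
      exact Nat.mul_le_mul_left 2 (pt_mono hz hzA hi h2i _ (cnt_shmono (q+1) D2 hS)))
  -- total weight
  have hFsum : ∑ A ∈ F, 2 * cnt (q+1) D2 F A ≤ ∑ G ∈ starF k z, WW (q+1) z D2 F G := by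
    rw [← Finset.sum_filter_add_sum_filter_not F (fun A => z ∈ A)]
    have h1 : ∑ A ∈ F with z ∈ A, 2 * cnt (q+1) D2 F A ≤ ∑ A ∈ F with z ∈ A,
        WW (q+1) z D2 F A := Finset.sum_le_sum (fun A _ => cnt_le_WW _ _ _ _ _)
    have h2 : ∑ G ∈ starF k z, WW (q+1) z D2 F G = ∑ A ∈ F with z ∈ A, WW (q+1) z D2 F A +
        ∑ G ∈ powersetCard k (univ : Finset (Fin n)) with (z ∈ G ∧ G ∉ F),
          WW (q+1) z D2 F G := by
      rw [← Finset.sum_filter_add_sum_filter_not (starF k z) (fun A => A ∈ F)]
      congr 1
      · apply Finset.sum_congr _ (fun _ _ => rfl)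
        ext A
        simp only [starF, Finset.mem_filter, Finset.mem_powersetCard, Finset.subset_univ,
          true_and]
        constructor
        · rintro ⟨⟨_, h⟩, h'⟩; exact ⟨h', h⟩
        · rintro ⟨h, h'⟩; exact ⟨⟨hU A h, h'⟩, h⟩
      · apply Finset.sum_congr _ (fun _ _ => rfl)
        ext A
        simp only [starF, Finset.mem_filter, Finset.mem_powersetCard, Finset.subset_univ,
          true_and]
        tauto
    rw [h2]
    exact Nat.add_le_add h1 hmain
  have hcntsum : ∑ A ∈ F, cnt (q+1) D2 F A =
      ∑ R ∈ powersetCard (q+1) (univ : Finset (Fin n)),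
        (if D2 < deg F R then 1 else 0) * deg F R := by
    rw [← sum_deg]
    apply Finset.sum_congr rfl
    intro A _
    unfold cnt
    rw [Finset.card_filter]
  have hWsum : ∑ G ∈ starF k z, WW (q+1) z D2 F G =
      ∑ R ∈ powersetCard (q+1) (univ : Finset (Fin n)), om z D2 F R * deg (starF k z) R := by
    rw [← sum_deg]
    rfl
  rw [← Finset.mul_sum, hcntsum, hWsum] at hFsum
  -- pointwise bound
  have hpt : ∀ R ∈ powersetCard (q+1) (univ : Finset (Fin n)),
      2 * (deg F R - D2) + om z D2 F R * deg (starF k z) R ≤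
      2 * ((if D2 < deg F R then 1 else 0) * deg F R) + (if z ∈ R then 2 * (D1 - D2) else 0) := by
    intro R hR
    rw [Finset.mem_powersetCard] at hR
    by_cases hzR : z ∈ R
    · have h1 := deg_star_mem k z R (by omega) hzR
      rw [hR.2] at h1
      rw [h1, ← hD1]
      simp only [om, hzR, if_true]
      by_cases h : D2 < deg F R
      · simp only [h, if_true]; omega
      · simp only [h, if_false]; omega
    · have h1 := deg_star_notMem k z R (by omega) hzR
      rw [hR.2] at h1
      rw [h1, ← hD2]
      simp only [om, hzR, if_false]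
      by_cases h : D2 < deg F R
      · simp only [h, if_true]; omega
      · simp only [h, if_false]; omega
  have hsum := Finset.sum_le_sum hpt
  rw [Finset.sum_add_distrib, Finset.sum_add_distrib, ← Finset.mul_sum, ← Finset.mul_sum,
    ← Finset.sum_filter, Finset.sum_const, smul_eq_mul] at hsum
  have hN : ((powersetCard (q+1) (univ : Finset (Fin n))).filter (fun R => z ∈ R)).card =
      (n-1).choose (q+1-1) := by
    have := card_sup (q+1) ({z} : Finset (Fin n)) (by simp)
    simp only [Finset.singleton_subset_iff, Finset.card_singleton] at this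
    exact this
  rw [hN] at hsum
  have h3 : (n-1).choose (q+1-1) * (2 * (D1 - D2)) = 2 * ((n-1).choose (q+1-1) * (D1 - D2)) := by
    ring
  rw [h3] at hsum
  omega

end Pool.Agent.DPS
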