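import Pool.Agent.DPS.Base
import Pool.Agent.DPS.Class

namespace Pool.Agent.DPS

open Finset

variable {n : ℕ}

theorem hc_congr {A B : Finset (Fin n)} {j m : ℕ} (h : A ∩ pre j = B ∩ pre j) (hm : m ≤ j) :
    hc A m = hc B m := by
  unfold hc
  congr 1
  ext x
  have h1 : x ∈ A ∩ pre j ↔ x ∈ B ∩ pre j := by rw [h]
  simp only [Finset.mem_inter, mem_pre] at h1 ⊢
  constructor
  · rintro ⟨h2, h3⟩
    exact ⟨(h1.mp ⟨h2, by omega⟩).1, h3⟩
  · rintro ⟨h2, h3⟩
    exact ⟨(h1.mpr ⟨h2, by omega⟩).1, h3⟩

theorem FH_congr {A B : Finset (Fin n)} {i : ℕ} (h : A ∩ pre (2*i) = B ∩ pre (2*i))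
    (hA : FH i A) : FH i B := by
  refine ⟨hA.1, ?_, ?_⟩
  · rw [← hc_congr h le_rfl]; exact hA.2.1
  · intro m h1 h2
    rw [← hc_congr h (by omega)]; exact hA.2.2 m h1 h2

theorem card_high {m : ℕ} (h : m ≤ n) :
    Fintype.card {x : Fin n // m ≤ x.val} = n - m := by
  rw [Fintype.card_subtype]
  have h1 := Finset.card_filter_add_card_filter_not (s := (univ : Finset (Fin n)))
    (fun x => m ≤ x.val)
  have h2 : (univ.filter (fun x : Fin n => ¬ m ≤ x.val)) = pre m := by
    ext x; simp [mem_pre]
  rw [h2, card_pre h, Finset.card_univ, Fintype.card_fin] at h1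
  omega

open Classical in
theorem main_class (k : ℕ) (hn : 3*k ≤ n+1) (z : Fin n) (hz : z.val = 0)
    (F : Finset (Finset (Fin n))) (hU : ∀ A ∈ F, A.card = k)
    (hI : ∀ A ∈ F, ∀ B ∈ F, ¬ Disjoint A B)
    (W : Finset (Fin n) → ℕ)
    (hW : ∀ (P : Finset (Fin n)) (x b c : Fin n), P.card + 1 = k → z ∈ P → x ∉ P → b ∉ P →
      c ∉ P → x ≠ b → x ≠ c → b ≠ c → W (insert x P) ≤ W (insert b P) + W (insert c P))
    (i : ℕ) (T : Finset (Fin n)) (A₀ : Finset (Fin n)) (hA₀ : A₀ ∈ F) (hz₀ : z ∉ A₀)
    (hi : FH i A₀) (hT : T = pre (2*i) \ A₀) :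
    (∑ A ∈ F with (FH i A ∧ pre (2*i) \ A = T), W (pt i A)) ≤
      ∑ G ∈ powersetCard k (univ : Finset (Fin n)) with
        ((z ∈ G ∧ G ∉ F) ∧ (FH i G ∧ G ∩ pre (2*i) = T)), W G := by
  have hik : i ≤ k := by
    have h1 := hi.2.1
    have h2 := hc_le_card A₀ (2*i)
    rw [hU A₀ hA₀] at h2
    omega
  have hi1 := hi.1
  have h2i : 2*i ≤ n := by omega
  have hTpre : T ⊆ pre (2*i) := by rw [hT]; exact Finset.sdiff_subset
  have hTcard : T.card = i := by
    have h2 : (pre (2*i) \ A₀).card + (pre (2*i) ∩ A₀).card = 2*i := by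
      rw [Finset.card_sdiff_add_card_inter, card_pre h2i]
    rw [Finset.inter_comm] at h2
    have h3 : (A₀ ∩ pre (2*i)).card = i := hi.2.1
    rw [hT]; omega
  have hzT : z ∈ T := by
    rw [hT, Finset.mem_sdiff, mem_pre]
    exact ⟨by omega, hz₀⟩
  -- the ground set of the rest
  let em : {x : Fin n // 2*i ≤ x.val} ↪ Fin n := Function.Embedding.subtype _
  have hem : ∀ (f : Finset {x : Fin n // 2*i ≤ x.val}) (x : Fin n),
      x ∈ f.map em ↔ ∃ h : 2*i ≤ x.val, (⟨x, h⟩ : {x : Fin n // 2*i ≤ x.val}) ∈ f := by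
    intro f x
    rw [Finset.mem_map]
    constructor
    · rintro ⟨y, hy, rfl⟩
      exact ⟨y.2, hy⟩
    · rintro ⟨h, hf⟩
      exact ⟨_, hf, rfl⟩
  let up : Finset {x : Fin n // 2*i ≤ x.val} → Finset (Fin n) := fun f => T ∪ f.map em
  let dn : Finset {x : Fin n // 2*i ≤ x.val} → Finset (Fin n) := fun f =>
    (pre (2*i) \ T) ∪ f.map em
  let sub : Finset (Fin n) → Finset {x : Fin n // 2*i ≤ x.val} := fun A =>
    A.subtype (fun x => 2*i ≤ x.val)
  have hsub : ∀ A, (sub A).map em = A \ pre (2*i) := by
    intro A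
    ext x
    rw [hem]
    simp only [sub, Finset.mem_subtype, Finset.mem_sdiff, mem_pre, not_lt, exists_prop]
    tauto
  have hdisjT : ∀ f : Finset {x : Fin n // 2*i ≤ x.val}, Disjoint T (f.map em) := by
    intro f
    rw [Finset.disjoint_left]
    intro x hx hx'
    rw [hem] at hx'
    obtain ⟨h, _⟩ := hx'
    have := hTpre hx
    rw [mem_pre] at this
    omega
  have hupcap : ∀ f : Finset {x : Fin n // 2*i ≤ x.val}, up f ∩ pre (2*i) = T := by
    intro f
    ext x
    simp only [up, Finset.mem_inter, Finset.mem_union, mem_pre, hem]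
    constructor
    · rintro ⟨h | ⟨h, _⟩, h'⟩
      · exact h
      · omega
    · intro h
      have := hTpre h
      rw [mem_pre] at this
      exact ⟨Or.inl h, this⟩
  have hTpt : T = pt i A₀ ∩ pre (2*i) := by
    rw [hT]
    ext x
    simp only [Finset.mem_inter, mem_pt, mem_pre, Finset.mem_sdiff]
    constructor
    · rintro ⟨h1, h2⟩
      exact ⟨Or.inl ⟨h1, h2⟩, h1⟩
    · rintro ⟨h | h, h'⟩
      · exact h
      · omega
  have hmain := class_le (β := {x : Fin n // 2*i ≤ x.val}) (k - i)
    (by rw [card_high h2i]; omega) (fun f => W (up f))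
    (by
      intro P x b c hP hx hb hc hxb hxc hbc
      have hins : ∀ y : {x : Fin n // 2*i ≤ x.val}, up (insert y P) = insert y.1 (up P) := by
        intro y
        ext t
        simp only [up, Finset.map_insert, Finset.mem_union, Finset.mem_insert]
        have : em y = y.1 := rfl
        rw [this]
        tauto
      have hnot : ∀ y : {x : Fin n // 2*i ≤ x.val}, y ∉ P → y.1 ∉ up P := by
        intro y hy h
        simp only [up, Finset.mem_union] at h
        rcases h with h | h
        · have := hTpre h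
          rw [mem_pre] at this
          have := y.2
          omega
        · rw [hem] at h
          exact hy h.2
      simp only [hins]
      apply hW
      · simp only [up]
        rw [Finset.card_union_of_disjoint (hdisjT P), Finset.card_map, hTcard]
        omega
      · simp only [up, Finset.mem_union]
        exact Or.inl hzT
      · exact hnot x hx
      · exact hnot b hb
      · exact hnot c hc
      · exact fun h => hxb (Subtype.ext h)
      · exact fun h => hxc (Subtype.ext h)
      · exact fun h => hbc (Subtype.ext h))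
    (fun f => dn f ∈ F) (fun g => up g ∉ F)
    (by
      intro f g _ _ hf hfg hg
      apply hI _ hf _ hg
      rw [Finset.disjoint_left]
      intro x hx hx'
      simp only [dn, up, Finset.mem_union, Finset.mem_sdiff, mem_pre, hem] at hx hx'
      rcases hx with hx | ⟨hx1, hx2⟩
      · rcases hx' with hx' | ⟨hx1', _⟩
        · exact hx.2 hx'
        · omega
      · rcases hx' with hx' | ⟨hx1', hx2'⟩
        · have := hTpre hx'
          rw [mem_pre] at this
          omega
        · exact (Finset.disjoint_left.mp hfg hx2) hx2')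
  rw [← Finset.sum_filter, ← Finset.sum_filter] at hmain
  -- left side
  have hleft : (∑ A ∈ F with (FH i A ∧ pre (2*i) \ A = T), W (pt i A)) ≤
      ∑ f ∈ powersetCard (k-i) (univ : Finset {x : Fin n // 2*i ≤ x.val}) with dn f ∈ F,
        W (up f) := by
    have hA : ∀ A ∈ F.filter (fun A => FH i A ∧ pre (2*i) \ A = T),
        pt i A = up (sub A) ∧ A = dn (sub A) ∧ (sub A).card = k - i := by
      intro A hA
      rw [Finset.mem_filter] at hA
      obtain ⟨hAF, hFH, hAT⟩ := hA
      refine ⟨?_, ?_, ?_⟩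
      · simp only [up, hsub]
        rw [← hAT]; rfl
      · simp only [dn, hsub]
        rw [← hAT]
        ext x
        simp only [Finset.mem_union, Finset.mem_sdiff, mem_pre]
        tauto
      · have h1 : (sub A).card = (A \ pre (2*i)).card := by
          rw [← hsub, Finset.card_map]
        have h2 := Finset.card_sdiff_add_card_inter A (pre (2*i))
        have h3 : (A ∩ pre (2*i)).card = i := hFH.2.1
        have h4 := hU A hAF
        omega
    have hinj : Set.InjOn sub (F.filter (fun A => FH i A ∧ pre (2*i) \ A = T)) := by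
      intro A h1 B h2 hAB
      have e1 := (hA A h1).2.1
      have e2 := (hA B h2).2.1
      rw [e1, e2, hAB]
    calc (∑ A ∈ F with (FH i A ∧ pre (2*i) \ A = T), W (pt i A))
        = ∑ A ∈ F with (FH i A ∧ pre (2*i) \ A = T), W (up (sub A)) := by
          apply Finset.sum_congr rfl
          intro A h1
          rw [(hA A h1).1]
      _ = ∑ f ∈ (F.filter (fun A => FH i A ∧ pre (2*i) \ A = T)).image sub, W (up f) := by
          rw [Finset.sum_image hinj]
      _ ≤ _ := by
          apply Finset.sum_le_sum_of_subset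
          intro f hf
          rw [Finset.mem_image] at hf
          obtain ⟨A, h1, rfl⟩ := hf
          rw [Finset.mem_filter, Finset.mem_powersetCard]
          refine ⟨⟨Finset.subset_univ _, (hA A h1).2.2⟩, ?_⟩
          rw [← (hA A h1).2.1]
          exact (Finset.mem_filter.mp h1).1
  have hright : (∑ g ∈ powersetCard (k-i) (univ : Finset {x : Fin n // 2*i ≤ x.val}) with
        up g ∉ F, W (up g)) ≤ ∑ G ∈ powersetCard k (univ : Finset (Fin n)) with
        ((z ∈ G ∧ G ∉ F) ∧ (FH i G ∧ G ∩ pre (2*i) = T)), W G := by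
    have hinj : Set.InjOn up (powersetCard (k-i)
        (univ : Finset {x : Fin n // 2*i ≤ x.val}) |>.filter (fun g => up g ∉ F)) := by
      intro f _ g _ hfg
      ext y
      have h1 : y.1 ∈ up f ↔ y.1 ∈ up g := by rw [hfg]
      simp only [up, Finset.mem_union, hem] at h1
      have h2 : y.1 ∉ T := by
        intro h
        have := hTpre h
        rw [mem_pre] at this
        have := y.2
        omega
      simpa [h2, y.2] using h1
    rw [← Finset.sum_image (f := fun G => W G) hinj]
    apply Finset.sum_le_sum_of_subset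
    intro G hG
    rw [Finset.mem_image] at hG
    obtain ⟨g, hg, rfl⟩ := hG
    rw [Finset.mem_filter, Finset.mem_powersetCard] at hg
    rw [Finset.mem_filter, Finset.mem_powersetCard]
    refine ⟨⟨Finset.subset_univ _, ?_⟩, ⟨?_, hg.2⟩, ?_, hupcap g⟩
    · simp only [up]
      rw [Finset.card_union_of_disjoint (hdisjT g), Finset.card_map, hTcard, hg.1.2]
      omega
    · simp only [up, Finset.mem_union]
      exact Or.inl hzT
    · refine FH_congr ?_ (FH_pt hi h2i)
      rw [hupcap, ← hTpt]
  exact hleft.trans (hmain.trans hright)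

open Classical in
theorem main_abs (k : ℕ) (hn : 3*k ≤ n+1) (z : Fin n) (hz : z.val = 0)
    (F : Finset (Finset (Fin n))) (hU : ∀ A ∈ F, A.card = k)
    (hI : ∀ A ∈ F, ∀ B ∈ F, ¬ Disjoint A B) (hS : Shifted F)
    (W : Finset (Fin n) → ℕ)
    (hW : ∀ (P : Finset (Fin n)) (x b c : Fin n), P.card + 1 = k → z ∈ P → x ∉ P → b ∉ P →
      c ∉ P → x ≠ b → x ≠ c → b ≠ c → W (insert x P) ≤ W (insert b P) + W (insert c P))
    (w : Finset (Fin n) → ℕ)
    (hw : ∀ A ∈ F, z ∉ A → ∀ i, FH i A → 2*i ≤ n → w A ≤ W (pt i A)) :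
    (∑ A ∈ F with z ∉ A, w A) ≤
      ∑ G ∈ powersetCard k (univ : Finset (Fin n)) with (z ∈ G ∧ G ∉ F), W G := by
  let hit : Finset (Fin n) → ℕ := fun A => if h : ∃ i, FH i A then h.choose else 0
  have hhit : ∀ A i, FH i A → hit A = i := by
    intro A i hi
    have hex : ∃ i, FH i A := ⟨i, hi⟩
    simp only [hit, dif_pos hex]
    exact FH_unique hex.choose_spec hi
  have hFH : ∀ A ∈ F.filter (fun A => z ∉ A), FH (hit A) A := by
    intro A hA
    rw [Finset.mem_filter] at hA
    obtain ⟨i, hi⟩ := exists_FH hS hI hA.1 hz hA.2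
    rw [hhit A i hi]; exact hi
  let key : Finset (Fin n) → ℕ × Finset (Fin n) := fun A => (hit A, pre (2 * hit A) \ A)
  let key' : Finset (Fin n) → ℕ × Finset (Fin n) := fun A => (hit A, A ∩ pre (2 * hit A))
  set K := (F.filter (fun A => z ∉ A)).image key with hK
  have h2 : ∀ A ∈ F.filter (fun A => z ∉ A), 2 * hit A ≤ n := by
    intro A hA
    have h3 := (hFH A hA).2.1
    have h4 := hc_le_card A (2 * hit A)
    rw [Finset.mem_filter] at hA
    rw [hU A hA.1] at h4
    have h5 := (hFH A (Finset.mem_filter.mpr hA)).1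
    omega
  calc (∑ A ∈ F with z ∉ A, w A)
      ≤ ∑ A ∈ F with z ∉ A, W (pt (hit A) A) := by
        apply Finset.sum_le_sum
        intro A hA
        have := Finset.mem_filter.mp hA
        exact hw A this.1 this.2 _ (hFH A hA) (h2 A hA)
    _ = ∑ κ ∈ K, ∑ A ∈ (F.filter (fun A => z ∉ A)) with key A = κ, W (pt (hit A) A) := by
        rw [Finset.sum_fiberwise_of_maps_to]
        intro A hA
        exact Finset.mem_image_of_mem _ hA
    _ ≤ ∑ κ ∈ K, ∑ G ∈ (powersetCard k (univ : Finset (Fin n))).filter
          (fun G => (z ∈ G ∧ G ∉ F) ∧ key' G ∈ K) with key' G = κ, W G := by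
        apply Finset.sum_le_sum
        intro κ hκ
        rw [hK, Finset.mem_image] at hκ
        obtain ⟨A₀, hA₀, rfl⟩ := hκ
        have hA₀' := Finset.mem_filter.mp hA₀
        have hmc := main_class k hn z hz F hU hI W hW (hit A₀) (pre (2 * hit A₀) \ A₀) A₀
          hA₀'.1 hA₀'.2 (hFH A₀ hA₀) rfl
        refine le_trans ?_ (hmc.trans ?_)
        · have e : ∀ A ∈ (F.filter (fun A => z ∉ A)).filter (fun A => key A = key A₀),
              W (pt (hit A) A) = W (pt (hit A₀) A) := by
            intro A hA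
            rw [Finset.mem_filter] at hA
            have : hit A = hit A₀ := congrArg Prod.fst hA.2
            rw [this]
          rw [Finset.sum_congr rfl e]
          apply Finset.sum_le_sum_of_subset
          intro A hA
          rw [Finset.mem_filter] at hA
          have e1 : hit A = hit A₀ := congrArg Prod.fst hA.2
          have e2 : pre (2 * hit A) \ A = pre (2 * hit A₀) \ A₀ := congrArg Prod.snd hA.2
          rw [Finset.mem_filter]
          refine ⟨(Finset.mem_filter.mp hA.1).1, ?_, ?_⟩
          · rw [← e1]; exact hFH A hA.1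
          · rw [← e2, e1]
        · apply Finset.sum_le_sum_of_subset
          intro G hG
          rw [Finset.mem_filter] at hG
          obtain ⟨h3, h4, h5, h6⟩ := hG
          have h7 := hhit G _ h5
          have h8 : key' G = key A₀ := by
            simp only [key', key]
            rw [h7, h6]
          rw [Finset.mem_filter, Finset.mem_filter]
          exact ⟨⟨h3, h4, by rw [h8]; exact Finset.mem_image_of_mem _ hA₀⟩, h8⟩
    _ = ∑ G ∈ (powersetCard k (univ : Finset (Fin n))).filter
          (fun G => (z ∈ G ∧ G ∉ F) ∧ key' G ∈ K), W G := by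
        rw [Finset.sum_fiberwise_of_maps_to]
        intro G hG
        exact (Finset.mem_filter.mp hG).2.2
    _ ≤ _ := by
        apply Finset.sum_le_sum_of_subset
        intro G hG
        rw [Finset.mem_filter] at hG ⊢
        exact ⟨hG.1, hG.2.1⟩

end Pool.Agent.DPS
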