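import Pool.Agent.DPS.KIneq

namespace Pool.Agent.DPS

open Finset

variable {n : ℕ}

theorem card_star (k : ℕ) (hk : 1 ≤ k) (z : Fin n) :
    (starF k z).card = (n-1).choose (k-1) := by
  have := card_sup k ({z} : Finset (Fin n)) (by simpa using hk)
  simp only [Finset.singleton_subset_iff, Finset.card_singleton] at this
  exact this

theorem shmono_ind {F : Finset (Finset (Fin n))} (hF : Shifted F) :
    ShMono (fun A => if A ∈ F then 1 else 0) := by
  intro A i j hij hj hi
  by_cases hA : A ∈ F
  · simp [hA, hF A hA i j hij hj hi]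
  · simp [hA]

theorem ekr_shifted (k : ℕ) (hk : 1 ≤ k) (hn : 3*k ≤ n+1) (z : Fin n)
    (hz : z.val = 0) (F : Finset (Finset (Fin n))) (hU : ∀ A ∈ F, A.card = k)
    (hI : ∀ A ∈ F, ∀ B ∈ F, ¬ Disjoint A B) (hS : Shifted F) :
    F.card ≤ (starF k z).card ∧ (F.card = (starF k z).card → F = starF k z) := by
  classical
  by_cases hall : ∀ A ∈ F, z ∈ A
  · have hsub : F ⊆ starF k z := by
      intro A hA
      simp only [starF, Finset.mem_filter, Finset.mem_powersetCard, Finset.subset_univ, true_and]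
      exact ⟨hU A hA, hall A hA⟩
    exact ⟨Finset.card_le_card hsub, fun h => Finset.eq_of_subset_of_card_le hsub h.symm.le⟩
  · push Not at hall
    obtain ⟨A₀, hA₀, hz₀⟩ := hall
    obtain ⟨i₀, hi₀⟩ := exists_FH hS hI hA₀ hz hz₀
    have h2i : 2 * i₀ ≤ n := by
      have h3 := hi₀.2.1
      have h4 := hc_le_card A₀ (2 * i₀)
      rw [hU A₀ hA₀] at h4
      have h5 := hi₀.1
      omega
    have hG₀ : pt i₀ A₀ ∈ F := by
      have := pt_mono hz hz₀ hi₀ h2i _ (shmono_ind hS)
      simp only [hA₀, if_true] at this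
      by_contra hc
      simp [hc] at this
    have hmain := main_abs k hn z hz F hU hI hS
      (fun G => 1 + if G = pt i₀ A₀ then 1 else 0)
      (by
        intro P x b c _ _ _ _ _ _ _ _
        split_ifs <;> omega)
      (fun A => 1 + if A = A₀ then 1 else 0)
      (by
        intro A _ _ i hi _
        by_cases h : A = A₀
        · subst h
          have := FH_unique hi hi₀
          subst this
          simp
        · simp only [h, if_false]
          split_ifs <;> omega)
    rw [Finset.sum_add_distrib, Finset.sum_add_distrib] at hmain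
    simp only [Finset.sum_const, smul_eq_mul, mul_one] at hmain
    have h1 : ∑ A ∈ F with z ∉ A, (if A = A₀ then 1 else 0) = 1 := by
      rw [Finset.sum_ite_eq']
      simp [hA₀, hz₀]
    have h2 : ∑ G ∈ powersetCard k (univ : Finset (Fin n)) with (z ∈ G ∧ G ∉ F),
        (if G = pt i₀ A₀ then 1 else 0) = 0 := by
      rw [Finset.sum_ite_eq']
      simp [hG₀]
    rw [h1, h2] at hmain
    have h3 := Finset.card_filter_add_card_filter_not (s := F) (fun A => z ∈ A)
    have h4 := Finset.card_filter_add_card_filter_not (s := starF k z) (fun A => A ∈ F)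
    have h5 : (starF k z).filter (fun A => A ∈ F) = F.filter (fun A => z ∈ A) := by
      ext A
      simp only [starF, Finset.mem_filter, Finset.mem_powersetCard, Finset.subset_univ,
        true_and]
      constructor
      · rintro ⟨⟨_, h⟩, h'⟩; exact ⟨h', h⟩
      · rintro ⟨h, h'⟩; exact ⟨⟨hU A h, h'⟩, h⟩
    have h6 : (starF k z).filter (fun A => A ∉ F) =
        (powersetCard k (univ : Finset (Fin n))).filter (fun G => z ∈ G ∧ G ∉ F) := by
      ext A
      simp only [starF, Finset.mem_filter, Finset.mem_powersetCard, Finset.subset_univ,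
        true_and]
      tauto
    rw [h5, h6] at h4
    have h7 : F.card < (starF k z).card := by omega
    exact ⟨h7.le, fun h => absurd h h7.ne⟩

/-- Swap two points in a set. -/
def sw (i j : Fin n) (A : Finset (Fin n)) : Finset (Fin n) := A.map (Equiv.swap i j).toEmbedding

theorem mem_sw {i j : Fin n} {A : Finset (Fin n)} {x : Fin n} :
    x ∈ sw i j A ↔ Equiv.swap i j x ∈ A := by
  unfold sw
  rw [Finset.mem_map_equiv, Equiv.symm_swap]

theorem sw_sw (i j : Fin n) (A : Finset (Fin n)) : sw i j (sw i j A) = A := by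
  ext x
  rw [mem_sw, mem_sw, Equiv.swap_apply_self]

theorem card_sw (i j : Fin n) (A : Finset (Fin n)) : (sw i j A).card = A.card :=
  Finset.card_map _

theorem mem_sw_left {i j : Fin n} {A : Finset (Fin n)} : i ∈ sw i j A ↔ j ∈ A := by
  rw [mem_sw, Equiv.swap_apply_left]

theorem mem_sw_right {i j : Fin n} {A : Finset (Fin n)} : j ∈ sw i j A ↔ i ∈ A := by
  rw [mem_sw, Equiv.swap_apply_right]

theorem mem_sw_other {i j x : Fin n} {A : Finset (Fin n)} (h1 : x ≠ i) (h2 : x ≠ j) :
    x ∈ sw i j A ↔ x ∈ A := by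
  rw [mem_sw, Equiv.swap_apply_of_ne_of_ne h1 h2]

theorem sw_eq_self {i j : Fin n} {A : Finset (Fin n)} (h : i ∈ A ↔ j ∈ A) : sw i j A = A := by
  ext x
  by_cases h1 : x = i
  · subst h1; rw [mem_sw_left]; exact h.symm
  · by_cases h2 : x = j
    · subst h2; rw [mem_sw_right]; exact h
    · exact mem_sw_other h1 h2

theorem sub_sw {i j : Fin n} {A B : Finset (Fin n)} : sw i j A ⊆ B ↔ A ⊆ sw i j B := by
  constructor
  · intro h x hx
    rw [mem_sw]
    apply h
    rw [mem_sw, Equiv.swap_apply_self]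
    exact hx
  · intro h x hx
    rw [mem_sw] at hx
    have := h hx
    rwa [mem_sw, Equiv.swap_apply_self] at this

theorem disj_sw {i j : Fin n} {A B : Finset (Fin n)} (h : Disjoint A B) :
    Disjoint (sw i j A) (sw i j B) := by
  rw [Finset.disjoint_left] at h ⊢
  intro x hx hx'
  rw [mem_sw] at hx hx'
  exact h hx hx'

/-- Membership in the shifted family. -/
def shP (i j : Fin n) (F : Finset (Finset (Fin n))) (A : Finset (Fin n)) : Prop :=
  (j ∈ A ∧ i ∉ A → (A ∈ F ∧ sw i j A ∈ F)) ∧ (¬ (j ∈ A ∧ i ∉ A) → (A ∈ F ∨ sw i j A ∈ F))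

instance (i j : Fin n) (F : Finset (Finset (Fin n))) : DecidablePred (shP i j F) := fun A => by
  unfold shP; infer_instance

/-- The shifted family. -/
def sh (i j : Fin n) (F : Finset (Finset (Fin n))) : Finset (Finset (Fin n)) :=
  univ.filter (shP i j F)

theorem mem_sh {i j : Fin n} {F : Finset (Finset (Fin n))} {A : Finset (Fin n)} :
    A ∈ sh i j F ↔ shP i j F A := by
  simp [sh]

theorem sum_sw (i j : Fin n) (g : Finset (Fin n) → ℕ) :
    ∑ A, g (sw i j A) = ∑ A, g A := by
  refine Finset.sum_nbij' (sw i j) (sw i j) ?_ ?_ ?_ ?_ ?_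
  · intro A _; exact Finset.mem_univ _
  · intro A _; exact Finset.mem_univ _
  · intro A _; exact sw_sw i j A
  · intro A _; exact sw_sw i j A
  · intro A _; rfl

theorem ind_pair (i j : Fin n) (F : Finset (Finset (Fin n))) (A : Finset (Fin n)) :
    (if A ∈ sh i j F then 1 else 0) + (if sw i j A ∈ sh i j F then 1 else 0) =
    (if A ∈ F then 1 else 0) + (if sw i j A ∈ F then 1 else 0) := by
  simp only [mem_sh, shP, sw_sw, mem_sw_left, mem_sw_right]
  by_cases hi : i ∈ A <;> by_cases hj : j ∈ A <;> by_cases h1 : A ∈ F <;>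
    by_cases h2 : sw i j A ∈ F <;> simp [hi, hj, h1, h2]
  all_goals (exfalso; rw [sw_eq_self (by simp [hi, hj])] at h2; tauto)

theorem sum_sh (i j : Fin n) (F : Finset (Finset (Fin n))) (g : Finset (Fin n) → ℕ)
    (hg : ∀ A, g (sw i j A) = g A) : ∑ A ∈ sh i j F, g A = ∑ A ∈ F, g A := by
  classical
  have h : ∀ F : Finset (Finset (Fin n)), 2 * ∑ A ∈ F, g A =
      ∑ A, ((if A ∈ F then 1 else 0) + (if sw i j A ∈ F then 1 else 0)) * g A := by
    intro F
    simp only [add_mul, Finset.sum_add_distrib]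
    have e1 : ∑ A, (if A ∈ F then 1 else 0) * g A = ∑ A ∈ F, g A := by
      simp only [ite_mul, one_mul, zero_mul, Finset.sum_ite_mem, Finset.univ_inter]
    have e2 : ∑ A, (if sw i j A ∈ F then 1 else 0) * g A = ∑ A ∈ F, g A := by
      rw [← e1, ← sum_sw i j (fun A => (if A ∈ F then 1 else 0) * g A)]
      apply Finset.sum_congr rfl
      intro A _
      simp only [hg]
    rw [e1, e2, two_mul]
  have h1 := h (sh i j F)
  have h2 := h F
  simp only [ind_pair] at h1
  omega

theorem card_sh (i j : Fin n) (F : Finset (Finset (Fin n))) : (sh i j F).card = F.card := by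
  rw [Finset.card_eq_sum_ones, Finset.card_eq_sum_ones]
  exact sum_sh i j F _ (fun _ => rfl)

theorem deg_sh (i j : Fin n) (F : Finset (Finset (Fin n))) (R : Finset (Fin n)) :
    deg (sh i j F) R + deg (sh i j F) (sw i j R) = deg F R + deg F (sw i j R) := by
  classical
  have h : ∀ F : Finset (Finset (Fin n)), deg F R + deg F (sw i j R) =
      ∑ A ∈ F, ((if R ⊆ A then 1 else 0) + (if sw i j R ⊆ A then 1 else 0)) := by
    intro F
    rw [Finset.sum_add_distrib, ← Finset.card_filter, ← Finset.card_filter]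
    rfl
  rw [h, h]
  apply sum_sh
  intro A
  rw [add_comm]
  congr 1
  · simp only [sub_sw, sw_sw]
  · simp only [← sub_sw]

theorem deg_sh_ge1 (i j : Fin n) (F : Finset (Finset (Fin n))) (R : Finset (Fin n))
    (hj : j ∈ R) (_hi : i ∉ R) : deg F (sw i j R) ≤ deg (sh i j F) (sw i j R) := by
  classical
  apply Finset.card_le_card
  intro A hA
  rw [Finset.mem_filter] at hA ⊢
  refine ⟨?_, hA.2⟩
  have hiA : i ∈ A := hA.2 (mem_sw_left.mpr hj)
  rw [mem_sh]
  exact ⟨fun h => absurd hiA h.2, fun _ => Or.inl hA.1⟩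

theorem deg_sh_ge2 (i j : Fin n) (F : Finset (Finset (Fin n))) (R : Finset (Fin n))
    (hj : j ∈ R) (_hi : i ∉ R) : deg F R ≤ deg (sh i j F) (sw i j R) := by
  classical
  apply Finset.card_le_card_of_injOn (sw i j)
  · intro A hA
    rw [Finset.mem_coe, Finset.mem_filter] at hA
    rw [Finset.mem_coe, Finset.mem_filter]
    refine ⟨?_, ?_⟩
    · rw [mem_sh]
      have : i ∈ sw i j A := mem_sw_left.mpr (hA.2 hj)
      exact ⟨fun h => absurd this h.2, fun _ => Or.inr (by rw [sw_sw]; exact hA.1)⟩
    · rw [sub_sw, sw_sw]; exact hA.2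
  · intro A _ B _ h
    rw [← sw_sw i j A, h, sw_sw]

theorem sum_major (i j : Fin n) (F : Finset (Finset (Fin n))) (r : ℕ) (f : ℕ → ℕ)
    (hf : ∀ a b a' b', a + b = a' + b' → a ≤ b' → b ≤ b' → f a + f b ≤ f a' + f b') :
    ∑ R ∈ powersetCard r (univ : Finset (Fin n)), f (deg F R) ≤
      ∑ R ∈ powersetCard r (univ : Finset (Fin n)), f (deg (sh i j F) R) := by
  classical
  have h : ∀ F : Finset (Finset (Fin n)),
      2 * ∑ R ∈ powersetCard r (univ : Finset (Fin n)), f (deg F R) =
      ∑ R ∈ powersetCard r (univ : Finset (Fin n)), (f (deg F R) + f (deg F (sw i j R))) := by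
    intro F
    rw [Finset.sum_add_distrib, two_mul]
    congr 1
    refine Finset.sum_nbij' (sw i j) (sw i j) ?_ ?_ ?_ ?_ ?_
    · intro A hA
      rw [Finset.mem_powersetCard] at hA ⊢
      exact ⟨Finset.subset_univ _, by rw [card_sw]; exact hA.2⟩
    · intro A hA
      rw [Finset.mem_powersetCard] at hA ⊢
      exact ⟨Finset.subset_univ _, by rw [card_sw]; exact hA.2⟩
    · intro A _; exact sw_sw i j A
    · intro A _; exact sw_sw i j A
    · intro A _; rw [sw_sw]
  have h1 := h F
  have h2 := h (sh i j F)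
  have h3 : ∑ R ∈ powersetCard r (univ : Finset (Fin n)), (f (deg F R) + f (deg F (sw i j R))) ≤
      ∑ R ∈ powersetCard r (univ : Finset (Fin n)),
        (f (deg (sh i j F) R) + f (deg (sh i j F) (sw i j R))) := by
    apply Finset.sum_le_sum
    intro R _
    by_cases hi : i ∈ R <;> by_cases hj : j ∈ R
    · have h4 : sw i j R = R := sw_eq_self (by simp [hi, hj])
      have h5 := deg_sh i j F R
      rw [h4] at h5 ⊢
      have h6 : deg (sh i j F) R = deg F R := by omega
      rw [h6]
    · have hi' : i ∉ sw i j R := fun h => hj (mem_sw_left.mp h)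
      have hj' : j ∈ sw i j R := mem_sw_right.mpr hi
      have h5 := deg_sh i j F R
      have h6 := deg_sh_ge1 i j F (sw i j R) hj' hi'
      have h7 := deg_sh_ge2 i j F (sw i j R) hj' hi'
      rw [sw_sw] at h6 h7
      have := hf (deg F (sw i j R)) (deg F R) (deg (sh i j F) (sw i j R)) (deg (sh i j F) R)
        (by omega) h7 h6
      omega
    · have h5 := deg_sh i j F R
      have h6 := deg_sh_ge1 i j F R hj hi
      have h7 := deg_sh_ge2 i j F R hj hi
      exact hf _ _ _ _ h5.symm h7 h6
    · have h4 : sw i j R = R := sw_eq_self (by simp [hi, hj])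
      have h5 := deg_sh i j F R
      rw [h4] at h5 ⊢
      have h6 : deg (sh i j F) R = deg F R := by omega
      rw [h6]
  omega

theorem sh_unif (i j : Fin n) (F : Finset (Finset (Fin n))) (k : ℕ)
    (hU : ∀ A ∈ F, A.card = k) : ∀ A ∈ sh i j F, A.card = k := by
  intro A hA
  rw [mem_sh] at hA
  by_cases h : j ∈ A ∧ i ∉ A
  · exact hU A (hA.1 h).1
  · rcases hA.2 h with h | h
    · exact hU A h
    · have := hU _ h
      rwa [card_sw] at this

theorem sh_inter (i j : Fin n) (F : Finset (Finset (Fin n)))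
    (hI : ∀ A ∈ F, ∀ B ∈ F, ¬ Disjoint A B) :
    ∀ A ∈ sh i j F, ∀ B ∈ sh i j F, ¬ Disjoint A B := by
  classical
  -- key case: `A` not in `F`
  have key : ∀ A ∈ sh i j F, ∀ B ∈ sh i j F, A ∉ F → ¬ Disjoint A B := by
    intro A hA B hB hAF hd
    rw [mem_sh] at hA hB
    have h1 : ¬ (j ∈ A ∧ i ∉ A) := fun h => hAF (hA.1 h).1
    have h2 : sw i j A ∈ F := (hA.2 h1).resolve_left hAF
    have h3 : i ∈ A ∧ j ∉ A := by
      by_contra hcon
      have : (i ∈ A ↔ j ∈ A) := by tauto
      rw [sw_eq_self this] at h2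
      exact hAF h2
    have h4 : i ∉ B := fun h => (Finset.disjoint_left.mp hd h3.1) h
    have h5 : sw i j B ∈ F := by
      by_cases hjB : j ∈ B
      · exact (hB.1 ⟨hjB, h4⟩).2
      · have h6 : sw i j B = B := sw_eq_self (by simp [h4, hjB])
        have h7 := hB.2 (fun h => hjB h.1)
        rw [h6] at h7 ⊢
        exact h7.elim id id
    exact hI _ h2 _ h5 (disj_sw hd)
  intro A hA B hB
  by_cases h1 : A ∈ F
  · by_cases h2 : B ∈ F
    · exact hI A h1 B h2
    · intro hd
      exact key B hB A hA h2 hd.symm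
  · exact key A hA B hB h1

/-- Potential. -/
def pot (F : Finset (Finset (Fin n))) : ℕ := ∑ A ∈ F, ∑ x ∈ A, x.val

theorem sum_val_sw {i j : Fin n} (hij : i < j) {A : Finset (Fin n)} (hj : j ∈ A) (hi : i ∉ A) :
    ∑ x ∈ sw i j A, x.val < ∑ x ∈ A, x.val := by
  classical
  unfold sw
  rw [Finset.sum_map]
  apply Finset.sum_lt_sum
  · intro x hx
    have hxi : x ≠ i := by rintro rfl; exact hi hx
    by_cases hxj : x = j
    · subst hxj
      simp only [Equiv.coe_toEmbedding, Equiv.swap_apply_right]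
      exact hij.le
    · simp only [Equiv.coe_toEmbedding, Equiv.swap_apply_of_ne_of_ne hxi hxj]
      exact le_rfl
  · refine ⟨j, hj, ?_⟩
    simp only [Equiv.coe_toEmbedding, Equiv.swap_apply_right]
    exact hij

theorem pot_sh {i j : Fin n} (hij : i < j) (F : Finset (Finset (Fin n)))
    (hex : ∃ A ∈ F, j ∈ A ∧ i ∉ A ∧ sw i j A ∉ F) : pot (sh i j F) < pot F := by
  classical
  set s : Finset (Fin n) → ℕ := fun A => ∑ x ∈ A, x.val with hs
  have h : ∀ F : Finset (Finset (Fin n)), 2 * pot F =
      ∑ A, ((if A ∈ F then s A else 0) + (if sw i j A ∈ F then s (sw i j A) else 0)) := by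
    intro F
    rw [Finset.sum_add_distrib]
    have e1 : ∑ A, (if A ∈ F then s A else 0) = pot F := by
      simp only [Finset.sum_ite_mem, Finset.univ_inter]
      rfl
    have e2 : ∑ A, (if sw i j A ∈ F then s (sw i j A) else 0) = pot F := by
      rw [← e1, ← sum_sw i j (fun A => (if A ∈ F then s A else 0))]
    rw [e1, e2, two_mul]
  have hle : ∀ A : Finset (Fin n),
      ((if A ∈ sh i j F then s A else 0) + (if sw i j A ∈ sh i j F then s (sw i j A) else 0)) ≤
      ((if A ∈ F then s A else 0) + (if sw i j A ∈ F then s (sw i j A) else 0)) := by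
    intro A
    simp only [mem_sh, shP, sw_sw, mem_sw_left, mem_sw_right]
    by_cases hi : i ∈ A <;> by_cases hj : j ∈ A
    · have : sw i j A = A := sw_eq_self (by simp [hi, hj])
      rw [this]
      by_cases h1 : A ∈ F <;> simp [hi, hj, h1]
    · have h3 : s A < s (sw i j A) := by
        have := sum_val_sw hij (A := sw i j A) (mem_sw_right.mpr hi)
          (fun h => hj (mem_sw_left.mp h))
        rw [sw_sw] at this
        exact this
      by_cases h1 : A ∈ F <;> by_cases h2 : sw i j A ∈ F <;> simp [hi, hj, h1, h2]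
      exact h3.le
    · have h3 : s (sw i j A) < s A := sum_val_sw hij hj hi
      by_cases h1 : A ∈ F <;> by_cases h2 : sw i j A ∈ F <;> simp [hi, hj, h1, h2]
      exact h3.le
    · have : sw i j A = A := sw_eq_self (by simp [hi, hj])
      rw [this]
      by_cases h1 : A ∈ F <;> simp [hi, hj, h1]
  have hlt : ∑ A : Finset (Fin n),
      ((if A ∈ sh i j F then s A else 0) + (if sw i j A ∈ sh i j F then s (sw i j A) else 0)) <
      ∑ A : Finset (Fin n),
      ((if A ∈ F then s A else 0) + (if sw i j A ∈ F then s (sw i j A) else 0)) := by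
    apply Finset.sum_lt_sum (fun A _ => hle A)
    obtain ⟨A, hA, hj, hi, hsA⟩ := hex
    refine ⟨A, Finset.mem_univ _, ?_⟩
    have h3 : s (sw i j A) < s A := sum_val_sw hij hj hi
    simp only [mem_sh, shP, sw_sw, mem_sw_left, mem_sw_right]
    simp [hi, hj, hA, hsA]
    exact h3
  rw [← h, ← h] at hlt
  omega

theorem sw_eq_insert {i j : Fin n} (hij : i ≠ j) {A : Finset (Fin n)} (hj : j ∈ A)
    (hi : i ∉ A) : sw i j A = insert i (A.erase j) := by
  classical
  ext x
  by_cases h1 : x = i
  · subst h1; simp [mem_sw_left, hj]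
  · by_cases h2 : x = j
    · subst h2; simp [mem_sw_right, hi, hij.symm]
    · rw [mem_sw_other h1 h2]; simp [h1, h2]

end Pool.Agent.DPS
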