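import Mathlib

namespace Pool.Agent.DPS

open Finset

/-- The tensor lemma on `Fin u → Fin 3`. -/
theorem tensor (u : ℕ) : ∀ (v : (Fin u → Fin 3) → ℕ)
    (_ : ∀ c t b b', b ≠ b' → b ≠ c t → b' ≠ c t →
      v c ≤ v (Function.update c t b) + v (Function.update c t b'))
    (I J : (Fin u → Fin 3) → Prop) [DecidablePred I] [DecidablePred J]
    (_ : ∀ c c', I c → (∀ t, c' t ≠ c t) → J c'),
    (∑ c, if I c then v c else 0) ≤ ∑ c, if J c then v c else 0 := by
  classical
  induction u with
  | zero =>
    intro v _ I J _ _ hIJ
    apply Finset.sum_le_sum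
    intro c _
    by_cases h : I c
    · have : J c := hIJ c c h (fun t => t.elim0)
      simp [h, this]
    · simp [h]
  | succ u ih =>
    intro v hv I J _ _ hIJ
    -- rewrite sums as double sums
    have key : ∀ (I : (Fin (u+1) → Fin 3) → Prop) [DecidablePred I],
        (∑ c, if I c then v c else 0) =
          ∑ a : Fin 3, ∑ z : Fin u → Fin 3,
            if I (Fin.cons a z) then v (Fin.cons a z) else 0 := by
      intro I _
      rw [← Fintype.sum_prod_type' (f := fun (a : Fin 3) (z : Fin u → Fin 3) =>
        if I (Fin.cons a z) then v (Fin.cons a z) else 0)]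
      symm
      exact Fintype.sum_equiv (Fin.consEquiv (fun _ : Fin (u+1) => Fin 3)) _ _
        (fun x => rfl)
    rw [key I, key J]
    -- neighbourhoods
    set N : Fin 3 → (Fin u → Fin 3) → Prop := fun a z' =>
      ∃ z, I (Fin.cons a z) ∧ ∀ t, z' t ≠ z t with hN
    have step1 : ∀ a : Fin 3,
        (∑ z : Fin u → Fin 3, if I (Fin.cons a z) then v (Fin.cons a z) else 0) ≤
        ∑ z : Fin u → Fin 3, if N a z then v (Fin.cons a z) else 0 := by
      intro a
      apply ih (fun z => v (Fin.cons a z))
      · intro c t b b' h1 h2 h3
        have := hv (Fin.cons a c) t.succ b b' h1 (by simpa using h2) (by simpa using h3)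
        simpa [Fin.cons_update] using this
      · intro c c' hc h
        exact ⟨c, hc, h⟩
    refine (Finset.sum_le_sum (fun a _ => step1 a)).trans ?_
    rw [Finset.sum_comm, Finset.sum_comm (s := (univ : Finset (Fin 3)))]
    apply Finset.sum_le_sum
    intro z _
    have hJ : ∀ a b : Fin 3, N a z → b ≠ a → J (Fin.cons b z) := by
      intro a b ⟨z', h1, h2⟩ hba
      apply hIJ _ _ h1
      intro t
      refine Fin.cases ?_ ?_ t
      · simpa using hba
      · intro i; simpa using h2 i
    have hline : ∀ a b b' : Fin 3, b ≠ b' → b ≠ a → b' ≠ a →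
        v (Fin.cons a z) ≤ v (Fin.cons b z) + v (Fin.cons b' z) := by
      intro a b b' h1 h2 h3
      have := hv (Fin.cons a z) 0 b b' h1 (by simpa using h2) (by simpa using h3)
      simpa [Fin.update_cons_zero] using this
    simp only [Fin.sum_univ_three]
    have h01 := hline 0 1 2 (by decide) (by decide) (by decide)
    have h12 := hline 1 0 2 (by decide) (by decide) (by decide)
    have h20 := hline 2 0 1 (by decide) (by decide) (by decide)
    have j01 := hJ 0 1
    have j02 := hJ 0 2
    have j10 := hJ 1 0
    have j12 := hJ 1 2
    have j20 := hJ 2 0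
    have j21 := hJ 2 1
    clear hline hJ hIJ step1 key hN hv ih
    by_cases n0 : N 0 z <;> by_cases n1 : N 1 z <;> by_cases n2 : N 2 z <;>
      simp only [n0, n1, n2, if_true, if_false] at * <;>
      first
      | (have q1 := j01 trivial (by decide); have q2 := j02 trivial (by decide)
         simp only [q1, q2, if_true]; split_ifs <;> (try omega)
         all_goals (exfalso; tauto))
      | (have q1 := j10 trivial (by decide); have q2 := j12 trivial (by decide)
         simp only [q1, q2, if_true]; split_ifs <;> (try omega)
         all_goals (exfalso; tauto))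
      | (have q1 := j20 trivial (by decide); have q2 := j21 trivial (by decide)
         simp only [q1, q2, if_true]; split_ifs <;> omega)
      | (simp)

end Pool.Agent.DPS
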